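import Mathlib

/-! Counting lemmas for the uniform measure on functions `B → Fin m`. -/

set_option linter.all false

open Finset

namespace Pool.Agent.V1162.CR

variable {B : Type} [Fintype B] [DecidableEq B] {m : ℕ} [NeZero m]

/-- every coordinate in `C` is zero -/
def Pres (f : B → Fin m) (C : Finset B) : Prop := ∀ e ∈ C, f e = 0

instance (C : Finset B) : DecidablePred (fun f : B → Fin m => Pres f C) := by
  intro f; unfold Pres; infer_instance

lemma Pres.mono {f : B → Fin m} {C D : Finset B} (h : Pres f D) (hCD : C ⊆ D) : Pres f C :=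
  fun e he => h e (hCD he)

lemma mpos : (0 : ℝ) < m := by
  have := NeZero.pos m
  exact_mod_cast this

lemma card_pres (C : Finset B) :
    ((univ.filter fun f : B → Fin m => Pres f C).card : ℝ) =
      (m : ℝ) ^ (Fintype.card B) * (1 / (m : ℝ)) ^ C.card := by
  have h1 : (univ.filter fun f : B → Fin m => Pres f C) =
      Fintype.piFinset (fun e => if e ∈ C then ({0} : Finset (Fin m)) else univ) := by
    ext f
    simp only [mem_filter, mem_univ, true_and, Fintype.mem_piFinset, Pres]
    constructor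
    · intro h e
      by_cases he : e ∈ C
      · simp [he, h e he]
      · simp [he]
    · intro h e he
      have := h e
      simpa [he] using this
  have h2 : ∀ e : B, ((if e ∈ C then ({0} : Finset (Fin m)) else univ).card : ℝ) =
      (m : ℝ) * (if e ∈ C then (1 / (m : ℝ)) else 1) := by
    intro e
    have := (mpos (m := m)).ne'
    by_cases he : e ∈ C
    · simp [he]
    · simp [he]
  rw [h1, Fintype.card_piFinset]
  push_cast
  simp_rw [h2]
  rw [prod_mul_distrib, prod_const, Finset.card_univ, prod_ite]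
  simp

lemma card_tuples (t : ℕ) (𝒞 : Finset (Finset B)) :
    ((univ.filter fun f : B → Fin m => ∃ g : Fin t → Finset B, (∀ i, g i ∈ 𝒞) ∧
      (∀ i j, i ≠ j → Disjoint (g i) (g j)) ∧ ∀ i, Pres f (g i)).card : ℝ) ≤
      (m : ℝ) ^ (Fintype.card B) * (∑ C ∈ 𝒞, (1 / (m : ℝ)) ^ C.card) ^ t := by
  classical
  set 𝒢 : Finset (Fin t → Finset B) := (Fintype.piFinset (fun _ : Fin t => 𝒞)).filter
    (fun g => ∀ i j, i ≠ j → Disjoint (g i) (g j)) with h𝒢
  have h1 : (univ.filter fun f : B → Fin m => ∃ g : Fin t → Finset B, (∀ i, g i ∈ 𝒞) ∧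
      (∀ i j, i ≠ j → Disjoint (g i) (g j)) ∧ ∀ i, Pres f (g i)) ⊆
      𝒢.biUnion (fun g => univ.filter fun f : B → Fin m => Pres f (univ.biUnion g)) := by
    intro f hf
    simp only [mem_filter, mem_univ, true_and] at hf
    obtain ⟨g, hg1, hg2, hg3⟩ := hf
    rw [mem_biUnion]
    refine ⟨g, ?_, ?_⟩
    · rw [h𝒢, mem_filter, Fintype.mem_piFinset]
      exact ⟨hg1, hg2⟩
    · simp only [mem_filter, mem_univ, true_and]
      intro e he
      rw [mem_biUnion] at he
      obtain ⟨i, _, hi⟩ := he
      exact hg3 i e hi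
  have h2 : ((univ.filter fun f : B → Fin m => ∃ g : Fin t → Finset B, (∀ i, g i ∈ 𝒞) ∧
      (∀ i j, i ≠ j → Disjoint (g i) (g j)) ∧ ∀ i, Pres f (g i)).card : ℝ) ≤
      ∑ g ∈ 𝒢, ((univ.filter fun f : B → Fin m => Pres f (univ.biUnion g)).card : ℝ) := by
    have := (card_le_card h1).trans card_biUnion_le
    exact_mod_cast this
  refine h2.trans ?_
  have h3 : ∀ g ∈ 𝒢, ((univ.filter fun f : B → Fin m => Pres f (univ.biUnion g)).card : ℝ) =
      (m : ℝ) ^ (Fintype.card B) * ∏ i, (1 / (m : ℝ)) ^ (g i).card := by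
    intro g hg
    rw [h𝒢, mem_filter] at hg
    rw [card_pres, card_biUnion (fun i _ j _ hij => hg.2 i j hij), prod_pow_eq_pow_sum]
  rw [sum_congr rfl h3, ← mul_sum]
  refine mul_le_mul_of_nonneg_left ?_ (by positivity)
  calc ∑ g ∈ 𝒢, ∏ i, (1 / (m : ℝ)) ^ (g i).card
      ≤ ∑ g ∈ Fintype.piFinset (fun _ : Fin t => 𝒞), ∏ i, (1 / (m : ℝ)) ^ (g i).card := by
        refine sum_le_sum_of_subset_of_nonneg (filter_subset _ _) ?_
        intro g _ _
        positivity
    _ = (∑ C ∈ 𝒞, (1 / (m : ℝ)) ^ C.card) ^ t := by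
        rw [← Finset.prod_univ_sum (fun _ : Fin t => 𝒞) (fun _ C => (1 / (m : ℝ)) ^ C.card)]
        simp

/-- Marginals: the event depends only on the coordinates in the image of `ι`. -/
lemma card_marginal {A : Type} [Fintype A] [DecidableEq A] (ι : A → B)
    (hι : Function.Injective ι) (P : (A → Fin m) → Prop) [DecidablePred P] :
    ((univ.filter fun f : B → Fin m => P (fun a => f (ι a))).card : ℝ) =
      (m : ℝ) ^ (Fintype.card B) * ((univ.filter fun g : A → Fin m => P g).card *
        (1 / (m : ℝ)) ^ (Fintype.card A)) := by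
  classical
  let p : B → Prop := fun b => b ∈ Set.range ι
  let e1 : (B → Fin m) ≃ (({b // p b} → Fin m) × ({b // ¬ p b} → Fin m)) :=
    Equiv.piEquivPiSubtypeProd p (fun _ => Fin m)
  let e2 : A ≃ {b // p b} := Equiv.ofInjective ι hι
  let e3 : (B → Fin m) ≃ ((A → Fin m) × ({b // ¬ p b} → Fin m)) :=
    e1.trans (Equiv.prodCongr (Equiv.arrowCongr e2.symm (Equiv.refl _)) (Equiv.refl _))
  have h3 : ∀ f : B → Fin m, (e3 f).1 = fun a => f (ι a) := by
    intro f
    rfl
  have h4 : (univ.filter fun f : B → Fin m => P (fun a => f (ι a))).card =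
      ((univ.filter fun g : A → Fin m => P g) ×ˢ
        (univ : Finset ({b // ¬ p b} → Fin m))).card := by
    refine Finset.card_bij (fun f _ => e3 f) ?_ ?_ ?_
    · intro f hf
      simp only [mem_filter, mem_univ, true_and] at hf
      rw [mem_product, mem_filter, h3]
      exact ⟨⟨mem_univ _, hf⟩, mem_univ _⟩
    · intro f _ g _ hfg
      exact e3.injective hfg
    · intro x hx
      rw [mem_product, mem_filter] at hx
      refine ⟨e3.symm x, ?_, by simp⟩
      simp only [mem_filter, mem_univ, true_and]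
      rw [← h3, Equiv.apply_symm_apply]
      exact hx.1.2
  have h5 : Fintype.card {b // ¬ p b} + Fintype.card A = Fintype.card B := by
    have h6 := Fintype.card_subtype_compl p
    have h7 : Fintype.card {b // p b} = Fintype.card A := (Fintype.card_congr e2).symm
    have h8 : Fintype.card {b // p b} ≤ Fintype.card B := Fintype.card_subtype_le _
    omega
  rw [h4, card_product]
  push_cast
  rw [Finset.card_univ, Fintype.card_fun, Fintype.card_fin, ← h5, pow_add]
  have hm := (mpos (m := m)).ne'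
  push_cast
  have h9 : (m : ℝ) ^ (Fintype.card A) * (1 / (m : ℝ)) ^ (Fintype.card A) = 1 := by
    rw [← mul_pow]
    rw [mul_one_div_cancel hm, one_pow]
  linear_combination (-((univ.filter fun g : A → Fin m => P g).card : ℝ) *
    (m : ℝ) ^ (Fintype.card {b // ¬ p b})) * h9

/-- No block is entirely zero. -/
lemma card_blocks (n s : ℕ) (ι : Fin n × Fin s → B) (hι : Function.Injective ι) :
    ((univ.filter fun f : B → Fin m => ∀ i, ¬ ∀ j, f (ι (i, j)) = 0).card : ℝ) =
      (m : ℝ) ^ (Fintype.card B) * (1 - (1 / (m : ℝ)) ^ s) ^ n := by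
  classical
  have h1 := card_marginal (m := m) ι hι (fun g => ∀ i, ¬ ∀ j, g (i, j) = 0)
  rw [h1]
  congr 1
  have h2 : (univ.filter fun g : Fin n × Fin s → Fin m => ∀ i, ¬ ∀ j, g (i, j) = 0).card =
      (Fintype.piFinset (fun _ : Fin n => (univ : Finset (Fin s → Fin m)).erase 0)).card := by
    refine Finset.card_bij (fun g _ => fun i j => g (i, j)) ?_ ?_ ?_
    · intro g hg
      simp only [mem_filter, mem_univ, true_and] at hg
      rw [Fintype.mem_piFinset]
      intro i
      rw [mem_erase]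
      refine ⟨?_, mem_univ _⟩
      intro h
      exact hg i (fun j => congrFun h j)
    · intro g _ g' _ h
      funext x
      have := congrFun (congrFun h x.1) x.2
      simpa using this
    · intro h hh
      rw [Fintype.mem_piFinset] at hh
      refine ⟨fun x => h x.1 x.2, ?_, rfl⟩
      simp only [mem_filter, mem_univ, true_and]
      intro i hi
      have := hh i
      rw [mem_erase] at this
      exact this.1 (funext hi)
  rw [h2, Fintype.card_piFinset]
  simp only [prod_const, Finset.card_univ, Fintype.card_fin, Fintype.card_prod]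
  rw [card_erase_of_mem (mem_univ _), Finset.card_univ, Fintype.card_fun, Fintype.card_fin,
    Fintype.card_fin]
  have hm := (mpos (m := m)).ne'
  have h3 : 1 ≤ m ^ s := Nat.one_le_pow _ _ (NeZero.pos m)
  push_cast [Nat.cast_sub h3]
  rw [mul_comm n s, pow_mul, ← mul_pow]
  congr 1
  rw [one_div_pow]
  field_simp

lemma one_sub_pow_le (x ℓ : ℕ) (hx : 1 ≤ x) :
    (1 - 1 / (x : ℝ)) ^ (x * ℓ) ≤ (1 / 2 : ℝ) ^ ℓ := by
  rw [pow_mul]
  have hx0 : (0 : ℝ) < x := by exact_mod_cast hx
  have h0 : 0 ≤ 1 - 1 / (x : ℝ) := by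
    rw [sub_nonneg, div_le_one hx0]
    exact_mod_cast hx
  refine pow_le_pow_left₀ (by positivity) ?_ ℓ
  rcases Nat.lt_or_ge x 2 with h | h
  · have : x = 1 := by omega
    subst this
    norm_num
  · have hx1 : (0 : ℝ) < (x : ℝ) - 1 := by
      have : (2 : ℝ) ≤ x := by exact_mod_cast h
      linarith
    have h1 : 1 + (x : ℝ) * (1 / ((x : ℝ) - 1)) ≤ (1 + 1 / ((x : ℝ) - 1)) ^ x :=
      one_add_mul_le_pow (by have : 0 ≤ 1 / ((x : ℝ) - 1) := by positivity
                             linarith) x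
    have h2 : (1 - 1 / (x : ℝ)) * (1 + 1 / ((x : ℝ) - 1)) = 1 := by
      field_simp
      ring
    have h3 : (2 : ℝ) ≤ (1 + 1 / ((x : ℝ) - 1)) ^ x := by
      refine le_trans ?_ h1
      have : 1 ≤ (x : ℝ) * (1 / ((x : ℝ) - 1)) := by
        rw [mul_one_div, le_div_iff₀ hx1]
        linarith
      linarith
    have h4 : (1 - 1 / (x : ℝ)) ^ x * (1 + 1 / ((x : ℝ) - 1)) ^ x = 1 := by
      rw [← mul_pow, h2, one_pow]
    have h5 : 0 ≤ (1 - 1 / (x : ℝ)) ^ x := by positivity
    nlinarith

end Pool.Agent.V1162.CR
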