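import Mathlib
import Pool.Agent.V1162.CR.Count

/-! The deterministic part: a good function on pairs yields a graph without long induced paths
in which the neighbourhood of a vertex is never covered by `s` other closed neighbourhoods. -/

set_option linter.all false

open Finset

namespace Pool.Agent.V1162.CR

variable {V : Type} [Fintype V] [DecidableEq V] {m : ℕ} [NeZero m]

/-- pairs of positions which are not neighbours on the path -/
def NP (n : ℕ) : Finset (Fin n × Fin n) := univ.filter (fun p => p.1.val + 2 ≤ p.2.val)

/-- the pairs of vertices at non-neighbouring positions -/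
def ES {n : ℕ} (φ : Fin n → V) : Finset (Sym2 V) := (NP n).image (fun p => s(φ p.1, φ p.2))

/-- the pairs `vc`, `c ∈ S` -/
def star (v : V) (S : Finset V) : Finset (Sym2 V) := S.image (fun c => s(v, c))

/-- the bad configurations at `S, r` -/
def Cfg (n : ℕ) (S : Finset V) (r : V) : Finset (Finset (Sym2 V)) :=
  (univ.filter (fun v => v ∉ insert r S)).image (fun v => star v (insert r S)) ∪
  (univ.filter (fun x : Fin n × Fin n × (Fin n → V) => Function.Injective x.2.2 ∧
    x.2.2 x.1 ∉ S ∧ x.2.2 x.2.1 ∈ S)).image (fun x => star (x.2.2 x.1) S ∪ ES x.2.2)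

lemma indep (d : ℕ) (F : V → Finset V) (t : ℕ) : ∀ (X : Finset V), t * (2 * d + 1) ≤ X.card →
    (∀ v ∈ X, (F v).card ≤ d) → ∃ I ⊆ X, I.card = t ∧ ∀ v ∈ I, ∀ v' ∈ I, v ≠ v' → v ∉ F v' := by
  induction t with
  | zero =>
    intro X _ _
    exact ⟨∅, empty_subset _, rfl, by simp⟩
  | succ t ih =>
    intro X hX hF
    have hne : X.Nonempty := by
      rw [← card_pos]
      have : 0 < (t + 1) * (2 * d + 1) := by positivity
      omega
    have hsum : ∑ v ∈ X, (X.filter (fun v' => v ∈ F v')).card ≤ ∑ v ∈ X, d := by
      have h1 : ∑ v ∈ X, (X.filter (fun v' => v ∈ F v')).card =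
          ∑ v' ∈ X, (X.filter (fun v => v ∈ F v')).card := by
        simp_rw [card_filter]
        rw [sum_comm]
      rw [h1]
      refine sum_le_sum ?_
      intro v' hv'
      refine le_trans (card_le_card ?_) (hF v' hv')
      intro x hx
      rw [mem_filter] at hx
      exact hx.2
    obtain ⟨v, hv, hvd⟩ := exists_le_of_sum_le hne hsum
    set X' := X \ ((insert v (F v)) ∪ X.filter (fun v' => v ∈ F v')) with hX'
    have hcard : t * (2 * d + 1) ≤ X'.card := by
      have h1 : X.card ≤ X'.card + ((insert v (F v)) ∪ X.filter (fun v' => v ∈ F v')).card := by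
        have := le_card_sdiff ((insert v (F v)) ∪ X.filter (fun v' => v ∈ F v')) X
        rw [← hX'] at this
        omega
      have h2 : ((insert v (F v)) ∪ X.filter (fun v' => v ∈ F v')).card ≤ (d + 1) + d := by
        refine (card_union_le _ _).trans (add_le_add ?_ hvd)
        exact (card_insert_le _ _).trans (by have := hF v hv; omega)
      have h3 : (t + 1) * (2 * d + 1) = t * (2 * d + 1) + (2 * d + 1) := by ring
      omega
    obtain ⟨I, hI, hIc, hIp⟩ := ih X' hcard (fun x hx => hF x (sdiff_subset hx))
    have hvI : v ∉ I := by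
      intro h
      have := hI h
      rw [hX', mem_sdiff] at this
      exact this.2 (by simp)
    refine ⟨insert v I, ?_, by rw [card_insert_of_notMem hvI, hIc], ?_⟩
    · intro x hx
      rw [mem_insert] at hx
      rcases hx with rfl | hx
      · exact hv
      · exact sdiff_subset (hI hx)
    · intro x hx y hy hxy
      rw [mem_insert] at hx hy
      rcases hx with rfl | hx
      · rcases hy with rfl | hy
        · exact absurd rfl hxy
        · have := hI hy
          rw [hX', mem_sdiff, mem_union, mem_filter] at this
          intro h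
          exact this.2 (Or.inr ⟨this.1, h⟩)
      · rcases hy with rfl | hy
        · have := hI hx
          rw [hX', mem_sdiff, mem_union, mem_insert] at this
          intro h
          exact this.2 (Or.inl (Or.inr h))
        · exact hIp x hx y hy hxy

lemma mem_ES {n : ℕ} {φ : Fin n → V} {e : Sym2 V} (he : e ∈ ES φ) {x : V} (hx : x ∈ e) :
    x ∈ univ.image φ := by
  unfold ES at he
  rw [mem_image] at he
  obtain ⟨p, _, rfl⟩ := he
  rw [Sym2.mem_iff] at hx
  rcases hx with rfl | rfl
  · exact mem_image_of_mem _ (mem_univ _)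
  · exact mem_image_of_mem _ (mem_univ _)

lemma mem_star {v : V} {S : Finset V} {e : Sym2 V} (he : e ∈ star v S) :
    ∃ c ∈ S, e = s(v, c) := by
  unfold star at he
  rw [mem_image] at he
  obtain ⟨c, hc, rfl⟩ := he
  exact ⟨c, hc, rfl⟩

/-- the extension property: no closed neighbourhood is covered by `s` others -/
def Evasive (G : SimpleGraph V) (s : ℕ) : Prop :=
  ∀ S : Finset V, S.card ≤ s → ∀ r, r ∉ S → ∃ v, G.Adj r v ∧ v ∉ S ∧ ∀ c ∈ S, ¬ G.Adj v c

theorem det {n s t : ℕ} (hn : 3 ≤ n) (hV : s + 1 ≤ Fintype.card V) (f : Sym2 V → Fin m)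
    (h1 : ∀ S : Finset V, S.card = s → ∃ X : Finset V, t * (2 * n + 1) + 1 ≤ X.card ∧
      ∀ v ∈ X, v ∉ S ∧ ∀ c ∈ S, f s(v, c) = 0)
    (h2 : ∀ (S : Finset V) (r : V), S.card = s → r ∉ S → ¬ ∃ g : Fin t → Finset (Sym2 V),
      (∀ i, g i ∈ Cfg n S r) ∧ (∀ i j, i ≠ j → Disjoint (g i) (g j)) ∧ ∀ i, Pres f (g i)) :
    ∃ G : SimpleGraph V, IsEmpty (SimpleGraph.pathGraph n ↪g G) ∧ Evasive G s := by
  classical
  set 𝒜 : Finset (Finset (Sym2 V)) := (univ.filter (fun φ : Fin n → V =>
    Function.Injective φ ∧ Pres f (ES φ))).image ES with h𝒜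
  obtain ⟨𝓜, h𝓜, hmax⟩ := Finset.exists_max_image
    (𝒜.powerset.filter (fun 𝓜 => ∀ C ∈ 𝓜, ∀ D ∈ 𝓜, C ≠ D → Disjoint C D)) Finset.card
    ⟨∅, by simp⟩
  rw [mem_filter, mem_powerset] at h𝓜
  obtain ⟨h𝓜A, h𝓜d⟩ := h𝓜
  set R : Finset (Sym2 V) := 𝓜.biUnion id with hR
  let G : SimpleGraph V :=
    { Adj := fun x y => x ≠ y ∧ ¬ (f s(x, y) = 0 ∧ s(x, y) ∉ R)
      symm := ⟨by
        intro x y h
        rw [Sym2.eq_swap]
        exact ⟨h.1.symm, h.2⟩⟩
      loopless := ⟨fun x h => h.1 rfl⟩ }
  have hGadj : ∀ x y, G.Adj x y ↔ x ≠ y ∧ ¬ (f s(x, y) = 0 ∧ s(x, y) ∉ R) := fun x y => Iff.rfl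
  refine ⟨G, ⟨?_⟩, ?_⟩
  · intro e
    let φ : Fin n → V := fun i => e i
    have hφ : Function.Injective φ := fun a b h => e.injective h
    have hkey : ∀ p ∈ NP n, f s(φ p.1, φ p.2) = 0 ∧ s(φ p.1, φ p.2) ∉ R := by
      intro p hp
      unfold NP at hp
      rw [mem_filter] at hp
      have hp2 := hp.2
      have hna : ¬ G.Adj (φ p.1) (φ p.2) := by
        intro h
        have := (e.map_rel_iff (a := p.1) (b := p.2)).1 h
        rw [SimpleGraph.pathGraph_adj] at this
        omega
      rw [hGadj] at hna
      have hne : φ p.1 ≠ φ p.2 := by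
        intro h
        have := hφ h
        rw [this] at hp2
        omega
      by_contra hcon
      exact hna ⟨hne, hcon⟩
    have hmem : ES φ ∈ 𝒜 := by
      rw [h𝒜, mem_image]
      refine ⟨φ, ?_, rfl⟩
      rw [mem_filter]
      refine ⟨mem_univ _, hφ, ?_⟩
      intro x hx
      unfold ES at hx
      rw [mem_image] at hx
      obtain ⟨p, hp, rfl⟩ := hx
      exact (hkey p hp).1
    have hdis : ∀ x ∈ ES φ, x ∉ R := by
      intro x hx
      unfold ES at hx
      rw [mem_image] at hx
      obtain ⟨p, hp, rfl⟩ := hx
      exact (hkey p hp).2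
    have hnon : (s(φ ⟨0, by omega⟩, φ ⟨2, by omega⟩) : Sym2 V) ∈ ES φ := by
      unfold ES
      rw [mem_image]
      refine ⟨(⟨0, by omega⟩, ⟨2, by omega⟩), ?_, rfl⟩
      unfold NP
      rw [mem_filter]
      exact ⟨mem_univ _, by simp⟩
    have hnot : ES φ ∉ 𝓜 := by
      intro h
      refine hdis _ hnon ?_
      rw [hR, mem_biUnion]
      exact ⟨ES φ, h, hnon⟩
    have := hmax (insert (ES φ) 𝓜) (by
      rw [mem_filter, mem_powerset]
      refine ⟨insert_subset hmem h𝓜A, ?_⟩
      have hd : ∀ D ∈ 𝓜, Disjoint (ES φ) D := by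
        intro D hD
        rw [disjoint_left]
        intro x hx hxD
        refine hdis x hx ?_
        rw [hR, mem_biUnion]
        exact ⟨D, hD, hxD⟩
      intro C hC D hD hCD
      rw [mem_insert] at hC hD
      rcases hC with rfl | hC
      · rcases hD with rfl | hD
        · exact absurd rfl hCD
        · exact hd D hD
      · rcases hD with rfl | hD
        · exact (hd C hC).symm
        · exact h𝓜d C hC D hD hCD)
    rw [card_insert_of_notMem hnot] at this
    omega
  · -- the extension property
    have main : ∀ S : Finset V, S.card = s → ∀ r, r ∉ S →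
        ∃ v, G.Adj r v ∧ v ∉ S ∧ ∀ c ∈ S, ¬ G.Adj v c := by
      intro S hS r hr
      by_contra hcon
      push Not at hcon
      obtain ⟨X, hX, hXp⟩ := h1 S hS
      have hXe : t * (2 * n + 1) ≤ (X.erase r).card := by
        have := pred_card_le_card_erase (s := X) (a := r)
        omega
      have hdesc : ∀ v ∈ X.erase r, ∃ (C D : Finset (Sym2 V)) (F : Finset V),
          F.card ≤ n ∧ (D = ∅ ∨ (D ∈ 𝓜 ∧ ∃ e ∈ D, v ∈ e)) ∧ (∀ e ∈ D, ∀ x ∈ e, x ∈ F) ∧
          C ⊆ star v (insert r S) ∪ D ∧ C ∈ Cfg n S r ∧ Pres f C := by
        intro v hv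
        rw [mem_erase] at hv
        obtain ⟨hvS, hvc⟩ := hXp v hv.2
        by_cases hvr : f s(v, r) = 0
        · refine ⟨star v (insert r S), ∅, ∅, by simp, Or.inl rfl, by simp, subset_union_left,
            ?_, ?_⟩
          · unfold Cfg
            rw [mem_union]
            left
            rw [mem_image]
            refine ⟨v, ?_, rfl⟩
            rw [mem_filter, mem_insert, not_or]
            exact ⟨mem_univ _, hv.1, hvS⟩
          · intro e he
            obtain ⟨c, hc, rfl⟩ := mem_star he
            rw [mem_insert] at hc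
            rcases hc with rfl | hc
            · exact hvr
            · exact hvc c hc
        · have hadj : G.Adj r v := by
            rw [hGadj]
            refine ⟨hv.1.symm, ?_⟩
            rw [Sym2.eq_swap]
            exact fun h => hvr h.1
          obtain ⟨c, hc, hcadj⟩ := hcon v hadj hvS
          rw [hGadj] at hcadj
          have hcR : s(v, c) ∈ R := by
            by_contra h
            exact hcadj.2 ⟨hvc c hc, h⟩
          rw [hR, mem_biUnion] at hcR
          obtain ⟨D, hD, hcD⟩ := hcR
          simp only [id] at hcD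
          have hDA := h𝓜A hD
          rw [h𝒜, mem_image] at hDA
          obtain ⟨φ, hφ, rfl⟩ := hDA
          rw [mem_filter] at hφ
          obtain ⟨_, hφi, hφp⟩ := hφ
          have hvφ := mem_ES hcD (Sym2.mem_mk_left v c)
          have hcφ := mem_ES hcD (Sym2.mem_mk_right v c)
          rw [mem_image] at hvφ hcφ
          obtain ⟨i, _, hi⟩ := hvφ
          obtain ⟨j, _, hj⟩ := hcφ
          refine ⟨star v S ∪ ES φ, ES φ, univ.image φ, ?_, Or.inr ⟨hD, _, hcD, by simp⟩,
            fun e he x hx => mem_ES he hx, ?_, ?_, ?_⟩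
          · exact card_image_le.trans (by simp)
          · refine union_subset_union ?_ subset_rfl
            unfold star
            exact image_subset_image (subset_insert _ _)
          · unfold Cfg
            rw [mem_union]
            right
            rw [mem_image]
            refine ⟨(i, j, φ), ?_, ?_⟩
            · rw [mem_filter]
              refine ⟨mem_univ _, hφi, ?_, ?_⟩
              · simpa [hi] using hvS
              · simpa [hj] using hc
            · simp [hi]
          · intro e he
            rw [mem_union] at he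
            rcases he with he | he
            · obtain ⟨c', hc', rfl⟩ := mem_star he
              exact hvc c' hc'
            · exact hφp e he
      choose! C D F hF hD hDF hC hCm hCp using hdesc
      obtain ⟨I, hI, hIc, hIp⟩ := indep n F t (X.erase r) hXe hF
      let eI : Fin t ≃ I := (finCongr hIc.symm).trans I.equivFin.symm
      refine h2 S r hS hr ⟨fun i => C (eI i).1, ?_, ?_, ?_⟩
      · intro i
        exact hCm _ (hI (eI i).2)
      · intro i j hij
        have hne : (eI i).1 ≠ (eI j).1 := by
          intro h
          exact hij (eI.injective (Subtype.ext h))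
        set v := (eI i).1 with hv
        set v' := (eI j).1 with hv'
        have hvI : v ∈ I := (eI i).2
        have hv'I : v' ∈ I := (eI j).2
        have hvF : v ∉ F v' := hIp v hvI v' hv'I hne
        have hv'F : v' ∉ F v := hIp v' hv'I v hvI hne.symm
        have hvn : v ∉ insert r S := by
          have := hI hvI
          rw [mem_erase] at this
          rw [mem_insert, not_or]
          exact ⟨this.1, (hXp v this.2).1⟩
        have hvn' : v' ∉ insert r S := by
          have := hI hv'I
          rw [mem_erase] at this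
          rw [mem_insert, not_or]
          exact ⟨this.1, (hXp v' this.2).1⟩
        rw [disjoint_left]
        intro e he he'
        have he := hC v (hI hvI) he
        have he' := hC v' (hI hv'I) he'
        rw [mem_union] at he he'
        rcases he with he | he
        · obtain ⟨c, hc, rfl⟩ := mem_star he
          rcases he' with he' | he'
          · obtain ⟨c', hc', h⟩ := mem_star he'
            rw [Sym2.eq_iff] at h
            rcases h with ⟨h, _⟩ | ⟨h, _⟩
            · exact hne h
            · rw [h] at hvn
              exact hvn hc'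
          · exact hvF (hDF v' (hI hv'I) _ he' v (by simp))
        · rcases he' with he' | he'
          · obtain ⟨c', hc', rfl⟩ := mem_star he'
            exact hv'F (hDF v (hI hvI) _ he v' (by simp))
          · have hDv : D v ∈ 𝓜 ∧ ∃ e ∈ D v, v ∈ e := by
              rcases hD v (hI hvI) with h | h
              · rw [h] at he
                simp at he
              · exact h
            have hDv' : D v' ∈ 𝓜 ∧ ∃ e ∈ D v', v' ∈ e := by
              rcases hD v' (hI hv'I) with h | h
              · rw [h] at he'
                simp at he'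
              · exact h
            have hEq : D v = D v' := by
              by_contra h
              have := h𝓜d _ hDv.1 _ hDv'.1 h
              rw [disjoint_left] at this
              exact this he he'
            obtain ⟨e', he'1, he'2⟩ := hDv.2
            rw [hEq] at he'1
            exact hvF (hDF v' (hI hv'I) e' he'1 v he'2)
      · intro i
        exact hCp _ (hI (eI i).2)
    intro S hS r hr
    obtain ⟨S', hSS', hS'r, hS'c⟩ : ∃ S' : Finset V, S ⊆ S' ∧ r ∉ S' ∧ S'.card = s := by
      have h1 : S ⊆ univ.erase r := by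
        intro x hx
        rw [mem_erase]
        exact ⟨fun h => hr (h ▸ hx), mem_univ _⟩
      have h2 : s ≤ (univ.erase r : Finset V).card := by
        rw [card_erase_of_mem (mem_univ _), card_univ]
        omega
      obtain ⟨S', ha, hb, hc⟩ := exists_subsuperset_card_eq h1 hS h2
      refine ⟨S', ha, ?_, hc⟩
      intro h
      have := hb h
      rw [mem_erase] at this
      exact this.1 rfl
    obtain ⟨v, hv1, hv2, hv3⟩ := main S' hS'c r hS'r
    exact ⟨v, hv1, fun h => hv2 (hSS' h), fun c hc => hv3 c (hSS' hc)⟩

end Pool.Agent.V1162.CR
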