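import Mathlib
import Pool.Agent.V1162.CR.Det

/-! The expected number of bad configurations. -/

set_option linter.all false

open Finset

namespace Pool.Agent.V1162.CR

variable {V : Type} [Fintype V] [DecidableEq V] {m : ℕ} [NeZero m]

lemma sum_pred (n : ℕ) : (∑ b ∈ range n, (b - 1)) * 2 = (n - 1) * (n - 2) := by
  induction n with
  | zero => rfl
  | succ n ih =>
    rw [sum_range_succ, add_mul, ih]
    rcases n with _ | _ | n
    · rfl
    · rfl
    · simp only [Nat.add_sub_cancel]
      have e2 : n + 1 + 1 - 2 = n := by omega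
      have e3 : n + 1 + 1 + 1 - 2 = n + 1 := by omega
      rw [e2, e3]
      ring

lemma card_NP (n : ℕ) : (NP n).card * 2 = (n - 1) * (n - 2) := by
  rw [← sum_pred]
  congr 1
  have h1 : (NP n).card = ∑ b : Fin n, (univ.filter (fun a : Fin n => a.val + 2 ≤ b.val)).card := by
    unfold NP
    rw [card_filter]
    rw [← univ_product_univ, sum_product_right]
    refine sum_congr rfl ?_
    intro b _
    rw [card_filter]
  rw [h1, ← Fin.sum_univ_eq_sum_range]
  refine sum_congr rfl ?_
  intro b _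
  have h2 : (univ.filter (fun a : Fin n => a.val + 2 ≤ b.val)).card =
      ((range n).filter (fun a => a + 2 ≤ b.val)).card := by
    refine card_bij (fun a _ => a.val) ?_ ?_ ?_
    · intro a ha
      simp only [mem_filter, mem_univ, true_and] at ha
      simp only [mem_filter, mem_range]
      exact ⟨a.2, ha⟩
    · intro a _ a' _ h
      exact Fin.ext h
    · intro a ha
      simp only [mem_filter, mem_range] at ha
      exact ⟨⟨a, ha.1⟩, by simpa using ha.2, rfl⟩
  rw [h2]
  have h3 : (range n).filter (fun a => a + 2 ≤ b.val) = range (b.val - 1) := by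
    ext a
    simp only [mem_filter, mem_range]
    have := b.2
    omega
  rw [h3, card_range]

lemma card_ES {n : ℕ} {φ : Fin n → V} (hφ : Function.Injective φ) :
    (ES φ).card = (NP n).card := by
  unfold ES
  rw [card_image_of_injOn]
  intro p hp q hq h
  unfold NP at hp hq
  simp only [coe_filter, mem_univ, true_and, Set.mem_setOf_eq] at hp hq
  simp only [Sym2.eq_iff] at h
  rcases h with ⟨h1, h2⟩ | ⟨h1, h2⟩
  · exact Prod.ext (hφ h1) (hφ h2)
  · have e1 := hφ h1
    have e2 := hφ h2
    rw [e1, e2] at hp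
    omega

lemma card_star (v : V) (S : Finset V) : (star v S).card = S.card := by
  unfold star
  rw [card_image_of_injective]
  intro c c' h
  exact Sym2.congr_right.1 h

/-- number of positions in `S` -/
def hits {n : ℕ} (S : Finset V) (φ : Fin n → V) : ℕ := (univ.filter (fun p => φ p ∈ S)).card

lemma card_cfgB {s : ℕ} {φ : Fin (2 * s + 2) → V} (hφ : Function.Injective φ) (v : V)
    {S : Finset V} (hS : S.card = s) :
    s * (2 * s + 2) ≤ (star v S ∪ ES φ).card + hits S φ := by
  have h1 : Disjoint (star v (S \ univ.image φ)) (ES φ) := by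
    rw [disjoint_left]
    intro e he he'
    obtain ⟨c, hc, rfl⟩ := mem_star he
    rw [mem_sdiff] at hc
    exact hc.2 (mem_ES he' (by simp))
  have h2 : (star v (S \ univ.image φ) ∪ ES φ).card ≤ (star v S ∪ ES φ).card := by
    refine card_le_card (union_subset_union ?_ subset_rfl)
    unfold star
    exact image_subset_image sdiff_subset
  rw [card_union_of_disjoint h1, card_star, card_ES hφ] at h2
  have h3 : (NP (2 * s + 2)).card = s * (2 * s + 1) := by
    have := card_NP (2 * s + 2)
    have e1 : 2 * s + 2 - 1 = 2 * s + 1 := by omega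
    have e2 : 2 * s + 2 - 2 = 2 * s := by omega
    rw [e1, e2] at this
    have e3 : (2 * s + 1) * (2 * s) = s * (2 * s + 1) * 2 := by ring
    omega
  have h4 : S.card ≤ (S \ univ.image φ).card + hits S φ := by
    have h5 : S ⊆ (S \ univ.image φ) ∪ (univ.filter (fun p => φ p ∈ S)).image φ := by
      intro x hx
      rw [mem_union]
      by_cases h : x ∈ univ.image φ
      · right
        rw [mem_image] at h ⊢
        obtain ⟨p, _, hp⟩ := h
        exact ⟨p, by simp [hp, hx], hp⟩
      · left
        rw [mem_sdiff]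
        exact ⟨hx, h⟩
    refine (card_le_card h5).trans ((card_union_le _ _).trans ?_)
    unfold hits
    exact Nat.add_le_add_left card_image_le _
  have h6 : s * (2 * s + 2) = s * (2 * s + 1) + s := by ring
  omega

lemma inv_pow_le {a b u : ℕ} (h : b ≤ a + u) :
    (1 / (m : ℝ)) ^ a ≤ (m : ℝ) ^ u * (1 / (m : ℝ)) ^ b := by
  have hm := mpos (m := m)
  have h1 : (1 / (m : ℝ)) ≤ 1 := by
    rw [div_le_one hm]
    have := NeZero.one_le (n := m)
    exact_mod_cast this
  have h2 : (1 / (m : ℝ)) ^ (a + u) ≤ (1 / (m : ℝ)) ^ b :=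
    pow_le_pow_of_le_one (by positivity) h1 h
  have h3 : (1 / (m : ℝ)) ^ a = (m : ℝ) ^ u * (1 / (m : ℝ)) ^ (a + u) := by
    rw [pow_add]
    have : (m : ℝ) ^ u * (1 / (m : ℝ)) ^ u = 1 := by
      rw [← mul_pow, mul_one_div_cancel hm.ne', one_pow]
    calc (1 / (m : ℝ)) ^ a = (1 / (m : ℝ)) ^ a * ((m : ℝ) ^ u * (1 / (m : ℝ)) ^ u) := by
          rw [this, mul_one]
      _ = _ := by ring
  rw [h3]
  exact mul_le_mul_of_nonneg_left h2 (by positivity)

lemma sum_image_le' {α β : Type} [DecidableEq β] (I : Finset α) (g : α → β) (w : β → ℝ)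
    (hw : ∀ b, 0 ≤ w b) : ∑ b ∈ I.image g, w b ≤ ∑ a ∈ I, w (g a) := by
  classical
  induction I using Finset.induction_on with
  | empty => simp
  | insert a I ha ih =>
    rw [image_insert, sum_insert ha]
    by_cases h : g a ∈ I.image g
    · rw [insert_eq_of_mem h]
      have := hw (g a)
      linarith
    · rw [sum_insert h]
      linarith

lemma sum_fixed {n s : ℕ} {S : Finset V} (hS : S.card = s) (j : Fin n) (hn : 1 ≤ n) :
    ∑ φ : Fin n → V, (if φ j ∈ S then (m : ℝ) ^ hits S φ else 0) ≤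
      (s * m) * ((Fintype.card V : ℝ) + s * m) ^ (n - 1) := by
  classical
  have hm := mpos (m := m)
  have h1 : ∀ φ : Fin n → V, (if φ j ∈ S then (m : ℝ) ^ hits S φ else 0) =
      ∏ p, (if p = j then (if φ p ∈ S then (m : ℝ) else 0) else
        (if φ p ∈ S then (m : ℝ) else 1)) := by
    intro φ
    have h2 : (m : ℝ) ^ hits S φ = ∏ p, (if φ p ∈ S then (m : ℝ) else 1) := by
      unfold hits
      rw [prod_ite]
      simp
    by_cases h : φ j ∈ S
    · rw [if_pos h, h2]
      refine prod_congr rfl ?_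
      intro p _
      by_cases hp : p = j
      · rw [if_pos hp, hp, if_pos h, if_pos h]
      · rw [if_neg hp]
    · rw [if_neg h]
      symm
      refine prod_eq_zero (mem_univ j) ?_
      rw [if_pos rfl, if_neg h]
  simp_rw [h1]
  have h3 := Finset.prod_univ_sum (fun _ : Fin n => (univ : Finset V))
    (fun p x => (if p = j then (if x ∈ S then (m : ℝ) else 0) else (if x ∈ S then (m : ℝ) else 1)))
  rw [Fintype.piFinset_univ] at h3
  rw [← h3]
  have h4 : ∀ p : Fin n, ∑ x : V, (if p = j then (if x ∈ S then (m : ℝ) else 0) else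
      (if x ∈ S then (m : ℝ) else 1)) ≤
      (if p = j then (s * m : ℝ) else (Fintype.card V : ℝ) + s * m) := by
    intro p
    by_cases hp : p = j
    · simp only [hp, if_true]
      rw [← sum_filter, sum_const, nsmul_eq_mul]
      have : (univ.filter (fun x => x ∈ S)).card = s := by
        rw [filter_mem_eq_inter, univ_inter, hS]
      rw [this]
    · simp only [hp, if_false]
      have h5 : ∀ x : V, (if x ∈ S then (m : ℝ) else 1) ≤ (if x ∈ S then (m : ℝ) else 0) + 1 := by
        intro x
        split_ifs <;> linarith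
      refine (sum_le_sum (fun x _ => h5 x)).trans ?_
      rw [sum_add_distrib, ← sum_filter, sum_const, nsmul_eq_mul]
      have : (univ.filter (fun x => x ∈ S)).card = s := by
        rw [filter_mem_eq_inter, univ_inter, hS]
      rw [this]
      simp only [sum_const, nsmul_eq_mul, mul_one, Finset.card_univ]
      linarith
  refine (prod_le_prod (fun p _ => ?_) (fun p _ => h4 p)).trans ?_
  · refine sum_nonneg ?_
    intro x _
    split_ifs <;> positivity
  · rw [prod_ite]
    simp only [prod_const]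
    have e1 : (univ.filter (fun p : Fin n => p = j)).card = 1 := by
      rw [filter_eq', if_pos (mem_univ _), card_singleton]
    have e2 : (univ.filter (fun p : Fin n => ¬ p = j)).card = n - 1 := by
      rw [filter_ne', card_erase_of_mem (mem_univ _), Finset.card_univ, Fintype.card_fin]
    rw [e1, e2, pow_one]

theorem sum_Cfg {s : ℕ} {S : Finset V} (hS : S.card = s) {r : V} (hr : r ∉ S) :
    ∑ C ∈ Cfg (2 * s + 2) S r, (1 / (m : ℝ)) ^ C.card ≤
      (Fintype.card V : ℝ) * (1 / (m : ℝ)) ^ (s + 1) +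
      (2 * s + 2 : ℝ) ^ 2 * ((s * m) * ((Fintype.card V : ℝ) + s * m) ^ (2 * s + 1) *
        (1 / (m : ℝ)) ^ (s * (2 * s + 2))) := by
  classical
  have hm := mpos (m := m)
  have hw : ∀ C : Finset (Sym2 V), 0 ≤ (1 / (m : ℝ)) ^ C.card := fun C => by positivity
  unfold Cfg
  set IA := (univ.filter (fun v => v ∉ insert r S)) with hIA
  set IB := (univ.filter (fun x : Fin (2 * s + 2) × Fin (2 * s + 2) × (Fin (2 * s + 2) → V) =>
    Function.Injective x.2.2 ∧ x.2.2 x.1 ∉ S ∧ x.2.2 x.2.1 ∈ S)) with hIB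
  have hA : ∑ C ∈ IA.image (fun v => star v (insert r S)), (1 / (m : ℝ)) ^ C.card ≤
      (Fintype.card V : ℝ) * (1 / (m : ℝ)) ^ (s + 1) := by
    refine (sum_image_le' IA _ (fun C : Finset (Sym2 V) => (1 / (m : ℝ)) ^ C.card) hw).trans ?_
    have h1 : ∀ v ∈ IA, (1 / (m : ℝ)) ^ (star v (insert r S)).card = (1 / (m : ℝ)) ^ (s + 1) := by
      intro v _
      rw [card_star, card_insert_of_notMem hr, hS]
    rw [sum_congr rfl h1, sum_const, nsmul_eq_mul]
    refine mul_le_mul_of_nonneg_right ?_ (by positivity)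
    exact_mod_cast card_le_univ IA
  have hB : ∑ C ∈ IB.image (fun x => star (x.2.2 x.1) S ∪ ES x.2.2), (1 / (m : ℝ)) ^ C.card ≤
      (2 * s + 2 : ℝ) ^ 2 * ((s * m) * ((Fintype.card V : ℝ) + s * m) ^ (2 * s + 1) *
        (1 / (m : ℝ)) ^ (s * (2 * s + 2))) := by
    refine (sum_image_le' IB _ (fun C : Finset (Sym2 V) => (1 / (m : ℝ)) ^ C.card) hw).trans ?_
    have h1 : ∀ x ∈ IB, (1 / (m : ℝ)) ^ (star (x.2.2 x.1) S ∪ ES x.2.2).card ≤
        (if x.2.2 x.2.1 ∈ S then (m : ℝ) ^ hits S x.2.2 else 0) *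
          (1 / (m : ℝ)) ^ (s * (2 * s + 2)) := by
      intro x hx
      rw [hIB, mem_filter] at hx
      rw [if_pos hx.2.2.2]
      exact inv_pow_le (card_cfgB hx.2.1 _ hS)
    refine (sum_le_sum h1).trans ?_
    rw [← sum_mul]
    have h2 : ∑ x ∈ IB, (if x.2.2 x.2.1 ∈ S then (m : ℝ) ^ hits S x.2.2 else 0) ≤
        ∑ x : Fin (2 * s + 2) × Fin (2 * s + 2) × (Fin (2 * s + 2) → V),
          (if x.2.2 x.2.1 ∈ S then (m : ℝ) ^ hits S x.2.2 else 0) := by
      refine sum_le_sum_of_subset_of_nonneg (filter_subset _ _) ?_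
      intro x _ _
      split_ifs <;> positivity
    have h3 : ∑ x : Fin (2 * s + 2) × Fin (2 * s + 2) × (Fin (2 * s + 2) → V),
          (if x.2.2 x.2.1 ∈ S then (m : ℝ) ^ hits S x.2.2 else 0) ≤
        (2 * s + 2 : ℝ) ^ 2 * ((s * m) * ((Fintype.card V : ℝ) + s * m) ^ (2 * s + 1)) := by
      rw [Fintype.sum_prod_type]
      simp_rw [Fintype.sum_prod_type]
      have h4 : ∀ i : Fin (2 * s + 2), ∀ j : Fin (2 * s + 2),
          ∑ φ : Fin (2 * s + 2) → V, (if φ j ∈ S then (m : ℝ) ^ hits S φ else 0) ≤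
          (s * m) * ((Fintype.card V : ℝ) + s * m) ^ (2 * s + 1) := by
        intro i j
        exact sum_fixed hS j (by omega)
      refine (sum_le_sum (fun i _ => sum_le_sum (fun j _ => h4 i j))).trans ?_
      simp only [sum_const, nsmul_eq_mul, Finset.card_univ, Fintype.card_fin]
      push_cast
      exact le_of_eq (by ring)
    calc _ ≤ ((2 * s + 2 : ℝ) ^ 2 * ((s * m) * ((Fintype.card V : ℝ) + s * m) ^ (2 * s + 1))) *
        (1 / (m : ℝ)) ^ (s * (2 * s + 2)) :=
          mul_le_mul_of_nonneg_right (h2.trans h3) (by positivity)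
      _ = _ := by ring
  have hU := Finset.sum_union_inter (s₁ := IA.image (fun v => star v (insert r S)))
    (s₂ := IB.image (fun x => star (x.2.2 x.1) S ∪ ES x.2.2))
    (f := fun C : Finset (Sym2 V) => (1 / (m : ℝ)) ^ C.card)
  have hI : 0 ≤ ∑ C ∈ (IA.image (fun v => star v (insert r S))) ∩
    (IB.image (fun x => star (x.2.2 x.1) S ∪ ES x.2.2)), (1 / (m : ℝ)) ^ C.card :=
    sum_nonneg (fun C _ => hw C)
  linarith

end Pool.Agent.V1162.CR
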