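import Mathlib
import Pool.Agent.V1162.CR.Det

/-! The deterministic part for graphs glued from several pieces.  A piece is either sparse
(the complement of a sparse random graph, type `true`) or a clique (type `false`). -/

set_option linter.all false

open Finset

namespace Pool.Agent.V1162.CR

variable {V : Type} [Fintype V] [DecidableEq V] {m : ℕ} [NeZero m]
variable {I : Type} [Fintype I] [DecidableEq I]

/-- a value in the lower half -/
def lo (x : Fin m) : Prop := x.val < m / 2

instance : DecidablePred (lo (m := m)) := by intro x; unfold lo; infer_instance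

/-- the vertices of a piece which a path can use -/
def capP (ty : I → Bool) (p : I) : ℕ := if ty p then 5 else 2

/-- one more than the number of cops which a piece can stand -/
def capC (ty : I → Bool) (p : I) : ℕ := if ty p then 3 else 1

lemma path_pieces {k : ℕ} {G : SimpleGraph V} (π : V → I) (ty : I → Bool)
    (hk : ∑ p, capP ty p < k)
    (h1 : ∀ p, ty p = false → ∀ x y, π x = p → π y = p → x ≠ y → G.Adj x y)
    (h2 : ∀ p, ty p = true → ∀ φ : Fin 6 → V, Function.Injective φ → (∀ i, π (φ i) = p) →
      (∀ x ∈ NP 6, ¬ G.Adj (φ x.1) (φ x.2)) → False) :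
    IsEmpty (SimpleGraph.pathGraph k ↪g G) := by
  constructor
  intro e
  have hsum : ∑ p, (univ.filter (fun i : Fin k => π (e i) = p)).card = k := by
    rw [← card_eq_sum_card_fiberwise (f := fun i : Fin k => π (e i)) (s := univ) (t := univ)
      (fun _ _ => mem_univ _)]
    simp
  obtain ⟨p, _, hp⟩ := exists_lt_of_sum_lt (s := univ) (f := capP ty)
    (g := fun p => (univ.filter (fun i : Fin k => π (e i) = p)).card) (by rw [hsum]; exact hk)
  have hgap : ∀ {n : ℕ} (q : Fin n ↪o Fin k) (a b : Fin n), a.val + 2 ≤ b.val →
      ¬ G.Adj (e (q a)) (e (q b)) := by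
    intro n q a b hab h
    have h3 := (e.map_rel_iff (a := q a) (b := q b)).1 h
    rw [SimpleGraph.pathGraph_adj] at h3
    have h4 : q a < q ⟨a.val + 1, by omega⟩ := q.strictMono (by rw [Fin.lt_def]; simp)
    have h5 : q ⟨a.val + 1, by omega⟩ < q b := q.strictMono (by rw [Fin.lt_def]; simp; omega)
    rw [Fin.lt_def] at h4 h5
    omega
  by_cases hty : ty p = true
  · have hc : 6 ≤ (univ.filter (fun i : Fin k => π (e i) = p)).card := by
      have : capP ty p = 5 := by unfold capP; simp [hty]
      rw [this] at hp
      exact hp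
    let q : Fin 6 ↪o Fin k := orderEmbOfCardLe _ hc
    have hq : ∀ i, π (e (q i)) = p := by
      intro i
      have := orderEmbOfCardLe_mem (univ.filter (fun i : Fin k => π (e i) = p)) hc i
      rw [mem_filter] at this
      exact this.2
    refine h2 p hty (fun i => e (q i)) ?_ hq ?_
    · intro a b hab
      exact q.injective (e.injective hab)
    · intro x hx
      unfold NP at hx
      rw [mem_filter] at hx
      exact hgap q x.1 x.2 hx.2
  · have hty' : ty p = false := by simpa using hty
    have hc : 3 ≤ (univ.filter (fun i : Fin k => π (e i) = p)).card := by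
      have : capP ty p = 2 := by unfold capP; simp [hty']
      rw [this] at hp
      exact hp
    let q : Fin 3 ↪o Fin k := orderEmbOfCardLe _ hc
    have hq : ∀ i, π (e (q i)) = p := by
      intro i
      have := orderEmbOfCardLe_mem (univ.filter (fun i : Fin k => π (e i) = p)) hc i
      rw [mem_filter] at this
      exact this.2
    refine hgap q 0 2 (by simp) (h1 p hty' _ _ (hq 0) (hq 2) ?_)
    intro h
    have := q.injective (e.injective h)
    simp at this

theorem det2 {k s t : ℕ} (π : V → I) (ty : I → Bool) (f : Sym2 V → Fin m)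
    (hk : ∑ p, capP ty p < k) (hs : s < ∑ p, capC ty p) (hV : ∀ p, 4 ≤ (univ.filter (fun v => π v = p)).card)
    (h1 : ∀ (S : Finset V) (r : V) (p : I), S.card ≤ s + 2 → r ∉ S →
      (S.filter (fun v => π v = p)).card ≤ 2 →
      ∃ X : Finset V, t * 13 + 1 ≤ X.card ∧ ∀ v ∈ X, π v = p ∧ v ∉ S ∧ v ≠ r ∧
        (∀ c ∈ S, π c = p → f s(v, c) = 0) ∧ (∀ c ∈ S, π c ≠ p → lo (f s(v, c))) ∧
        (π r ≠ p → ¬ lo (f s(v, r))))
    (h2 : ∀ (S : Finset V) (r : V), S.card = 2 → r ∉ S → ¬ ∃ g : Fin t → Finset (Sym2 V),
      (∀ i, g i ∈ Cfg 6 S r) ∧ (∀ i j, i ≠ j → Disjoint (g i) (g j)) ∧ ∀ i, Pres f (g i)) :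
    ∃ G : SimpleGraph V, IsEmpty (SimpleGraph.pathGraph k ↪g G) ∧ Evasive G s := by
  classical
  set 𝒜 : Finset (Finset (Sym2 V)) := (univ.filter (fun φ : Fin 6 → V =>
    Function.Injective φ ∧ Pres f (ES φ))).image ES with h𝒜
  obtain ⟨𝓜, h𝓜, hmax⟩ := Finset.exists_max_image
    (𝒜.powerset.filter (fun 𝓜 => ∀ C ∈ 𝓜, ∀ D ∈ 𝓜, C ≠ D → Disjoint C D)) Finset.card
    ⟨∅, by simp⟩
  rw [mem_filter, mem_powerset] at h𝓜
  obtain ⟨h𝓜A, h𝓜d⟩ := h𝓜
  set R : Finset (Sym2 V) := 𝓜.biUnion id with hR
  let G : SimpleGraph V :=
    { Adj := fun x y => x ≠ y ∧ (π x = π y → ¬ (ty (π x) = true ∧ f s(x, y) = 0 ∧ s(x, y) ∉ R)) ∧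
        (π x ≠ π y → ¬ lo (f s(x, y)))
      symm := ⟨by
        intro x y h
        rw [Sym2.eq_swap]
        refine ⟨h.1.symm, ?_, ?_⟩
        · intro hxy
          rw [hxy]
          exact h.2.1 hxy.symm
        · intro hxy
          exact h.2.2 (Ne.symm hxy)⟩
      loopless := ⟨fun x h => h.1 rfl⟩ }
  have hGadj : ∀ x y, G.Adj x y ↔ x ≠ y ∧
      (π x = π y → ¬ (ty (π x) = true ∧ f s(x, y) = 0 ∧ s(x, y) ∉ R)) ∧
        (π x ≠ π y → ¬ lo (f s(x, y))) := fun x y => Iff.rfl
  refine ⟨G, path_pieces π ty hk ?_ ?_, ?_⟩
  · intro p hp x y hx hy hxy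
    rw [hGadj]
    refine ⟨hxy, ?_, ?_⟩
    · intro _ h
      rw [hx, hp] at h
      simp at h
    · intro h
      exact absurd (hx.trans hy.symm) h
  · intro p hp φ hφ hφp hna
    have hkey : ∀ x ∈ NP 6, f s(φ x.1, φ x.2) = 0 ∧ s(φ x.1, φ x.2) ∉ R := by
      intro x hx
      have h3 := hna x hx
      rw [hGadj] at h3
      unfold NP at hx
      rw [mem_filter] at hx
      have hx2 := hx.2
      have hne : φ x.1 ≠ φ x.2 := by
        intro h
        have := hφ h
        rw [this] at hx2
        omega
      have hpp : π (φ x.1) = π (φ x.2) := (hφp _).trans (hφp _).symm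
      by_contra hcon
      exact h3 ⟨hne, fun _ h => hcon h.2, fun h => absurd hpp h⟩
    have hmem : ES φ ∈ 𝒜 := by
      rw [h𝒜, mem_image]
      refine ⟨φ, ?_, rfl⟩
      rw [mem_filter]
      refine ⟨mem_univ _, hφ, ?_⟩
      intro x hx
      unfold ES at hx
      rw [mem_image] at hx
      obtain ⟨p, hp, rfl⟩ := hx
      exact (hkey p hp).1
    have hdis : ∀ x ∈ ES φ, x ∉ R := by
      intro x hx
      unfold ES at hx
      rw [mem_image] at hx
      obtain ⟨p, hp, rfl⟩ := hx
      exact (hkey p hp).2
    have hnon : (s(φ 0, φ 2) : Sym2 V) ∈ ES φ := by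
      unfold ES
      rw [mem_image]
      refine ⟨(0, 2), ?_, rfl⟩
      unfold NP
      rw [mem_filter]
      exact ⟨mem_univ _, by simp⟩
    have hnot : ES φ ∉ 𝓜 := by
      intro h
      refine hdis _ hnon ?_
      rw [hR, mem_biUnion]
      exact ⟨ES φ, h, hnon⟩
    have := hmax (insert (ES φ) 𝓜) (by
      rw [mem_filter, mem_powerset]
      refine ⟨insert_subset hmem h𝓜A, ?_⟩
      have hd : ∀ D ∈ 𝓜, Disjoint (ES φ) D := by
        intro D hD
        rw [disjoint_left]
        intro x hx hxD
        refine hdis x hx ?_
        rw [hR, mem_biUnion]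
        exact ⟨D, hD, hxD⟩
      intro C hC D hD hCD
      rw [mem_insert] at hC hD
      rcases hC with rfl | hC
      · rcases hD with rfl | hD
        · exact absurd rfl hCD
        · exact hd D hD
      · rcases hD with rfl | hD
        · exact (hd C hC).symm
        · exact h𝓜d C hC D hD hCD)
    rw [card_insert_of_notMem hnot] at this
    omega
  · -- the extension property
    intro S hS r hr
    have hsum : ∑ p, (S.filter (fun v => π v = p)).card = S.card :=
      (card_eq_sum_card_fiberwise (f := π) (s := S) (t := univ) (fun _ _ => mem_univ _)).symm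
    obtain ⟨p, _, hp⟩ := exists_lt_of_sum_lt (s := univ)
      (f := fun p => (S.filter (fun v => π v = p)).card) (g := capC ty)
      (by rw [hsum]; exact lt_of_le_of_lt hS hs)
    by_cases hty : ty p = true
    swap
    · have hty' : ty p = false := by simpa using hty
      have h0 : (S.filter (fun v => π v = p)).card = 0 := by
        have : capC ty p = 1 := by unfold capC; simp [hty']
        simp only [this] at hp
        omega
      obtain ⟨X, hX, hXp⟩ := h1 S r p (by omega) hr (by omega)
      have hXne : X.Nonempty := by
        rw [← card_pos]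
        omega
      obtain ⟨v, hv⟩ := hXne
      obtain ⟨hv1, hv2, hv3, hv4, hv5, hv6⟩ := hXp v hv
      refine ⟨v, ?_, hv2, ?_⟩
      · rw [hGadj]
        refine ⟨hv3.symm, ?_, ?_⟩
        · intro h h'
          rw [h, hv1, hty'] at h'
          simp at h'
        · intro h
          rw [Sym2.eq_swap]
          refine hv6 ?_
          rw [hv1] at h
          exact h
      · intro c hc h
        have hcp : π c ≠ p := by
          intro h3
          rw [card_eq_zero] at h0
          have : c ∈ S.filter (fun v => π v = p) := by
            rw [mem_filter]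
            exact ⟨hc, h3⟩
          rw [h0] at this
          simp at this
        rw [hGadj] at h
        refine h.2.2 ?_ (hv5 c hc hcp)
        rw [hv1]
        exact hcp.symm
    · have hS2 : (S.filter (fun v => π v = p)).card ≤ 2 := by
        have : capC ty p = 3 := by unfold capC; simp [hty]
        simp only [this] at hp
        omega
      obtain ⟨S₂, hS₂a, hS₂b, hS₂c⟩ : ∃ S₂ : Finset V, S.filter (fun v => π v = p) ⊆ S₂ ∧
          S₂ ⊆ (univ.filter (fun v => π v = p)).erase r ∧ S₂.card = 2 := by
        refine exists_subsuperset_card_eq ?_ hS2 ?_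
        · intro x hx
          rw [mem_filter] at hx
          rw [mem_erase, mem_filter]
          exact ⟨fun h => hr (h ▸ hx.1), mem_univ _, hx.2⟩
        · have := pred_card_le_card_erase (s := univ.filter (fun v => π v = p)) (a := r)
          have := hV p
          omega
      have hrS₂ : r ∉ S₂ := by
        intro h
        have := hS₂b h
        rw [mem_erase] at this
        exact this.1 rfl
      have hS₂p : ∀ x ∈ S₂, π x = p := by
        intro x hx
        have := hS₂b hx
        rw [mem_erase, mem_filter] at this
        exact this.2.2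
      have hcard : (S ∪ S₂).card ≤ s + 2 := (card_union_le _ _).trans (by omega)
      have hrU : r ∉ S ∪ S₂ := by
        rw [mem_union, not_or]
        exact ⟨hr, hrS₂⟩
      have hfil : ((S ∪ S₂).filter (fun v => π v = p)).card ≤ 2 := by
        rw [← hS₂c]
        refine card_le_card ?_
        intro x hx
        rw [mem_filter, mem_union] at hx
        rcases hx.1 with h | h
        · exact hS₂a (by rw [mem_filter]; exact ⟨h, hx.2⟩)
        · exact h
      obtain ⟨X, hX, hXp⟩ := h1 (S ∪ S₂) r p hcard hrU hfil
      by_contra hcon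
      push Not at hcon
      have hdesc : ∀ v ∈ X, ∃ (C D : Finset (Sym2 V)) (F : Finset V),
          F.card ≤ 6 ∧ (D = ∅ ∨ (D ∈ 𝓜 ∧ ∃ e ∈ D, v ∈ e)) ∧ (∀ e ∈ D, ∀ x ∈ e, x ∈ F) ∧
          C ⊆ star v (insert r S₂) ∪ D ∧ C ∈ Cfg 6 S₂ r ∧ Pres f C := by
        intro v hv
        obtain ⟨hv1, hv2, hv3, hv4, hv5, hv6⟩ := hXp v hv
        rw [mem_union, not_or] at hv2
        have hvc : ∀ c ∈ S₂, f s(v, c) = 0 := fun c hc =>
          hv4 c (mem_union_right _ hc) (hS₂p c hc)
        by_cases hvr : π r = p ∧ f s(v, r) = 0
        · refine ⟨star v (insert r S₂), ∅, ∅, by simp, Or.inl rfl, by simp, subset_union_left,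
            ?_, ?_⟩
          · unfold Cfg
            rw [mem_union]
            left
            rw [mem_image]
            refine ⟨v, ?_, rfl⟩
            rw [mem_filter, mem_insert, not_or]
            exact ⟨mem_univ _, hv3, hv2.2⟩
          · intro e he
            obtain ⟨c, hc, rfl⟩ := mem_star he
            rw [mem_insert] at hc
            rcases hc with rfl | hc
            · exact hvr.2
            · exact hvc c hc
        · have hadj : G.Adj r v := by
            rw [hGadj]
            refine ⟨hv3.symm, ?_, ?_⟩
            · intro h h'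
              refine hvr ⟨h.trans hv1, ?_⟩
              rw [Sym2.eq_swap]
              exact h'.2.1
            · intro h
              rw [Sym2.eq_swap]
              refine hv6 ?_
              rw [hv1] at h
              exact h
          obtain ⟨c, hc, hcadj⟩ := hcon v hadj hv2.1
          rw [hGadj] at hcadj
          have hcp : π c = p := by
            by_contra h
            refine hcadj.2.2 ?_ (hv5 c (mem_union_left _ hc) h)
            rw [hv1]
            exact fun h' => h h'.symm
          have hcS₂ : c ∈ S₂ := hS₂a (by rw [mem_filter]; exact ⟨hc, hcp⟩)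
          have hcR : s(v, c) ∈ R := by
            by_contra h
            refine hcadj.2.1 (hv1.trans hcp.symm) ⟨?_, hvc c hcS₂, h⟩
            rw [hv1]
            exact hty
          rw [hR, mem_biUnion] at hcR
          obtain ⟨D, hD, hcD⟩ := hcR
          simp only [id] at hcD
          have hDA := h𝓜A hD
          rw [h𝒜, mem_image] at hDA
          obtain ⟨φ, hφ, rfl⟩ := hDA
          rw [mem_filter] at hφ
          obtain ⟨_, hφi, hφp⟩ := hφ
          have hvφ := mem_ES hcD (Sym2.mem_mk_left v c)
          have hcφ := mem_ES hcD (Sym2.mem_mk_right v c)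
          rw [mem_image] at hvφ hcφ
          obtain ⟨i, _, hi⟩ := hvφ
          obtain ⟨j, _, hj⟩ := hcφ
          refine ⟨star v S₂ ∪ ES φ, ES φ, univ.image φ, ?_, Or.inr ⟨hD, _, hcD, by simp⟩,
            fun e he x hx => mem_ES he hx, ?_, ?_, ?_⟩
          · exact card_image_le.trans (by simp)
          · refine union_subset_union ?_ subset_rfl
            unfold star
            exact image_subset_image (subset_insert _ _)
          · unfold Cfg
            rw [mem_union]
            right
            rw [mem_image]
            refine ⟨(i, j, φ), ?_, ?_⟩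
            · rw [mem_filter]
              refine ⟨mem_univ _, hφi, ?_, ?_⟩
              · simpa [hi] using hv2.2
              · simpa [hj] using hcS₂
            · simp [hi]
          · intro e he
            rw [mem_union] at he
            rcases he with he | he
            · obtain ⟨c', hc', rfl⟩ := mem_star he
              exact hvc c' hc'
            · exact hφp e he
      choose! C D F hF hD hDF hC hCm hCp using hdesc
      obtain ⟨J, hJ, hJc, hJp⟩ := indep 6 F t X (by omega) hF
      let eJ : Fin t ≃ J := (finCongr hJc.symm).trans J.equivFin.symm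
      refine h2 S₂ r hS₂c hrS₂ ⟨fun i => C (eJ i).1, ?_, ?_, ?_⟩
      · intro i
        exact hCm _ (hJ (eJ i).2)
      · intro i j hij
        have hne : (eJ i).1 ≠ (eJ j).1 := by
          intro h
          exact hij (eJ.injective (Subtype.ext h))
        set v := (eJ i).1 with hv
        set v' := (eJ j).1 with hv'
        have hvJ : v ∈ J := (eJ i).2
        have hv'J : v' ∈ J := (eJ j).2
        have hvF : v ∉ F v' := hJp v hvJ v' hv'J hne
        have hv'F : v' ∉ F v := hJp v' hv'J v hvJ hne.symm
        have hvn : v ∉ insert r S₂ := by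
          obtain ⟨_, hv2, hv3, _⟩ := hXp v (hJ hvJ)
          rw [mem_insert, not_or]
          exact ⟨hv3, fun h => hv2 (mem_union_right _ h)⟩
        have hvn' : v' ∉ insert r S₂ := by
          obtain ⟨_, hv2, hv3, _⟩ := hXp v' (hJ hv'J)
          rw [mem_insert, not_or]
          exact ⟨hv3, fun h => hv2 (mem_union_right _ h)⟩
        rw [disjoint_left]
        intro e he he'
        have he := hC v (hJ hvJ) he
        have he' := hC v' (hJ hv'J) he'
        rw [mem_union] at he he'
        rcases he with he | he
        · obtain ⟨c, hc, rfl⟩ := mem_star he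
          rcases he' with he' | he'
          · obtain ⟨c', hc', h⟩ := mem_star he'
            rw [Sym2.eq_iff] at h
            rcases h with ⟨h, _⟩ | ⟨h, _⟩
            · exact hne h
            · rw [h] at hvn
              exact hvn hc'
          · exact hvF (hDF v' (hJ hv'J) _ he' v (by simp))
        · rcases he' with he' | he'
          · obtain ⟨c', hc', rfl⟩ := mem_star he'
            exact hv'F (hDF v (hJ hvJ) _ he v' (by simp))
          · have hDv : D v ∈ 𝓜 ∧ ∃ e ∈ D v, v ∈ e := by
              rcases hD v (hJ hvJ) with h | h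
              · rw [h] at he
                simp at he
              · exact h
            have hDv' : D v' ∈ 𝓜 ∧ ∃ e ∈ D v', v' ∈ e := by
              rcases hD v' (hJ hv'J) with h | h
              · rw [h] at he'
                simp at he'
              · exact h
            have hEq : D v = D v' := by
              by_contra h
              have := h𝓜d _ hDv.1 _ hDv'.1 h
              rw [disjoint_left] at this
              exact this he he'
            obtain ⟨e', he'1, he'2⟩ := hDv.2
            rw [hEq] at he'1
            exact hvF (hDF v' (hJ hv'J) e' he'1 v he'2)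
      · intro i
        exact hCp _ (hJ (eJ i).2)

end Pool.Agent.V1162.CR
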