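import Mathlib

/-! The choice of the parameters. -/

set_option linter.all false

open Finset Filter Topology

namespace Pool.Agent.V1162.CR

lemma num_bound {s K : ℕ} (hs : 2 ≤ s) {L : ℕ} (hL : 1 ≤ L) (m M : ℕ) (hm : m = L ^ (2 * s + 2))
    (hM : M = m ^ s * L + s) (c : ℝ) (hc : c = (K : ℝ) * (1 + s) + s) :
    ((K * M : ℕ) : ℝ) ≤ c * (L : ℝ) ^ ((2 * s + 2) * s + 1) ∧
    (((K * M : ℕ) : ℝ) * (1 / (m : ℝ)) ^ (s + 1) +
      (2 * s + 2 : ℝ) ^ 2 * ((s * m) * (((K * M : ℕ) : ℝ) + s * m) ^ (2 * s + 1) *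
        (1 / (m : ℝ)) ^ (s * (2 * s + 2)))) ≤
      (c + (2 * s + 2) ^ 2 * (s * c ^ (2 * s + 1))) / L := by
  have hL1 : (1 : ℝ) ≤ L := by exact_mod_cast hL
  have hL0 : (0 : ℝ) < L := by linarith
  have hs0 : (0 : ℝ) ≤ s := by positivity
  have hK0 : (0 : ℝ) ≤ K := by positivity
  have hmR : (m : ℝ) = (L : ℝ) ^ (2 * s + 2) := by rw [hm]; push_cast; ring
  have hm1 : (1 : ℝ) ≤ m := by rw [hmR]; exact one_le_pow₀ hL1
  have hm0 : (0 : ℝ) < m := by linarith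
  have hc0 : 0 ≤ c := by rw [hc]; positivity
  set Q : ℝ := (m : ℝ) ^ s * L with hQ
  have hQ1 : 1 ≤ Q := by
    rw [hQ]
    have := one_le_pow₀ hm1 (n := s)
    nlinarith
  have hMR : (M : ℝ) = Q + s := by rw [hM]; push_cast; rfl
  have hmQ : (m : ℝ) ≤ Q := by
    rw [hQ]
    have h1 : (m : ℝ) ^ 1 ≤ (m : ℝ) ^ s := pow_le_pow_right₀ hm1 (by omega)
    have h2 : (m : ℝ) ^ s * 1 ≤ (m : ℝ) ^ s * L := mul_le_mul_of_nonneg_left hL1 (by positivity)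
    rw [pow_one] at h1
    linarith
  have hN : ((K * M : ℕ) : ℝ) + s * m ≤ c * Q := by
    push_cast
    rw [hMR, hc]
    have h1 : (K : ℝ) * (Q + s) ≤ K * ((1 + s) * Q) := by
      refine mul_le_mul_of_nonneg_left ?_ hK0
      nlinarith
    have h2 : (s : ℝ) * m ≤ s * Q := mul_le_mul_of_nonneg_left hmQ hs0
    nlinarith
  have hN' : ((K * M : ℕ) : ℝ) ≤ c * Q := by
    have : 0 ≤ (s : ℝ) * m := by positivity
    linarith
  have hQL : Q = (L : ℝ) ^ ((2 * s + 2) * s + 1) := by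
    rw [hQ, hmR, ← pow_mul, pow_succ]
  refine ⟨by rw [← hQL]; exact hN', ?_⟩
  have hA : ((K * M : ℕ) : ℝ) * (1 / (m : ℝ)) ^ (s + 1) ≤ c / L := by
    have h1 : ((K * M : ℕ) : ℝ) * (1 / (m : ℝ)) ^ (s + 1) ≤ c * Q * (1 / (m : ℝ)) ^ (s + 1) :=
      mul_le_mul_of_nonneg_right hN' (by positivity)
    refine h1.trans ?_
    have h2 : c * Q * (1 / (m : ℝ)) ^ (s + 1) = c * (L / m) := by
      rw [hQ, pow_succ, one_div_pow]
      field_simp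
    rw [h2, div_eq_mul_one_div c L]
    refine mul_le_mul_of_nonneg_left ?_ hc0
    rw [div_le_div_iff₀ hm0 hL0, hmR, one_mul]
    calc (L : ℝ) * L = (L : ℝ) ^ 2 := by ring
      _ ≤ (L : ℝ) ^ (2 * s + 2) := pow_le_pow_right₀ hL1 (by omega)
  have hB : (2 * s + 2 : ℝ) ^ 2 * ((s * m) * (((K * M : ℕ) : ℝ) + s * m) ^ (2 * s + 1) *
        (1 / (m : ℝ)) ^ (s * (2 * s + 2))) ≤ (2 * s + 2) ^ 2 * (s * c ^ (2 * s + 1)) / L := by
    have h1 : (((K * M : ℕ) : ℝ) + s * m) ^ (2 * s + 1) ≤ (c * Q) ^ (2 * s + 1) :=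
      pow_le_pow_left₀ (by positivity) hN _
    have h2 : (2 * s + 2 : ℝ) ^ 2 * ((s * m) * (((K * M : ℕ) : ℝ) + s * m) ^ (2 * s + 1) *
        (1 / (m : ℝ)) ^ (s * (2 * s + 2))) ≤
        (2 * s + 2 : ℝ) ^ 2 * ((s * m) * (c * Q) ^ (2 * s + 1) *
        (1 / (m : ℝ)) ^ (s * (2 * s + 2))) := by
      refine mul_le_mul_of_nonneg_left ?_ (by positivity)
      refine mul_le_mul_of_nonneg_right ?_ (by positivity)
      exact mul_le_mul_of_nonneg_left h1 (by positivity)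
    refine h2.trans ?_
    have h3 : (2 * s + 2 : ℝ) ^ 2 * ((s * m) * (c * Q) ^ (2 * s + 1) *
        (1 / (m : ℝ)) ^ (s * (2 * s + 2))) =
        ((2 * s + 2) ^ 2 * (s * c ^ (2 * s + 1))) * (m * (Q ^ (2 * s + 1) *
        (1 / (m : ℝ)) ^ (s * (2 * s + 2)))) := by
      rw [mul_pow]; ring
    rw [h3, div_eq_mul_one_div _ (L : ℝ)]
    refine mul_le_mul_of_nonneg_left ?_ (by positivity)
    have h4 : Q ^ (2 * s + 1) * (1 / (m : ℝ)) ^ (s * (2 * s + 2)) =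
        (L : ℝ) ^ (2 * s + 1) * (1 / (m : ℝ)) ^ s := by
      have e1 : s * (2 * s + 2) = s * (2 * s + 1) + s := by ring
      rw [hQ, mul_pow, e1, pow_add, ← pow_mul, one_div_pow, one_div_pow]
      have : (m : ℝ) ^ (s * (2 * s + 1)) ≠ 0 := by positivity
      field_simp
      ring
    rw [h4]
    obtain ⟨k, rfl⟩ : ∃ k, s = k + 2 := ⟨s - 2, by omega⟩
    have h5 : (m : ℝ) * ((L : ℝ) ^ (2 * (k + 2) + 1) * (1 / (m : ℝ)) ^ (k + 2)) =
        (L : ℝ) ^ (2 * (k + 2) + 1) / m * (1 / (m : ℝ)) ^ k := by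
      rw [pow_add (1 / (m : ℝ)) k 2]
      field_simp
    rw [h5]
    have h6 : (L : ℝ) ^ (2 * (k + 2) + 1) / m = 1 / L := by
      rw [hmR, div_eq_div_iff (by positivity) (by positivity)]
      ring
    have h7 : (1 / (m : ℝ)) ^ k ≤ 1 := by
      refine pow_le_one₀ (by positivity) ?_
      rw [div_le_one hm0]
      exact hm1
    rw [h6]
    have h8 : (0 : ℝ) ≤ 1 / L := by positivity
    nlinarith
  rw [add_div]
  exact add_le_add hA hB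

theorem numeric (s K t : ℕ) (hs : 2 ≤ s) (ht : t = ((2 * s + 2) * s + 1) * (s + 1) + 1) :
    ∃ L m M : ℕ, 1 ≤ L ∧ m = L ^ (2 * s + 2) ∧ M = m ^ s * L + s ∧
    ((K * M : ℕ) : ℝ) ^ s * K * (1 / 2) ^ L + ((K * M : ℕ) : ℝ) ^ (s + 1) *
    (((K * M : ℕ) : ℝ) * (1 / (m : ℝ)) ^ (s + 1) +
      (2 * s + 2 : ℝ) ^ 2 * ((s * m) * (((K * M : ℕ) : ℝ) + s * m) ^ (2 * s + 1) *
        (1 / (m : ℝ)) ^ (s * (2 * s + 2)))) ^ t < 1 := by
  obtain ⟨c, hc⟩ : ∃ c : ℝ, c = (K : ℝ) * (1 + s) + s := ⟨_, rfl⟩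
  have hc0 : 0 ≤ c := by rw [hc]; positivity
  set a := ((2 * s + 2) * s + 1) with ha
  set c3 : ℝ := (c + (2 * s + 2) ^ 2 * (s * c ^ (2 * s + 1))) with hc3
  have hc30 : 0 ≤ c3 := by rw [hc3]; positivity
  have h1 : Tendsto (fun L : ℕ => (c ^ s * K) * ((L : ℝ) ^ (a * s) * (1 / 2 : ℝ) ^ L)) atTop (𝓝 0) := by
    have := tendsto_pow_const_mul_const_pow_of_abs_lt_one (a * s) (r := (1 / 2 : ℝ))
      (by rw [abs_of_pos] <;> norm_num)
    simpa using this.const_mul (c ^ s * K)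
  have h2 : Tendsto (fun L : ℕ => (c ^ (s + 1) * c3 ^ t) / (L : ℝ)) atTop (𝓝 0) :=
    tendsto_const_div_atTop_nhds_zero_nat _
  have e1 := h1.eventually (gt_mem_nhds (show (0 : ℝ) < 1 / 2 by norm_num))
  have e2 := h2.eventually (gt_mem_nhds (show (0 : ℝ) < 1 / 2 by norm_num))
  obtain ⟨L, ⟨hL1, hL2⟩, hL⟩ := ((e1.and e2).and (eventually_ge_atTop 1)).exists
  refine ⟨L, L ^ (2 * s + 2), (L ^ (2 * s + 2)) ^ s * L + s, hL, rfl, rfl, ?_⟩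
  obtain ⟨hN, hE⟩ := num_bound (K := K) hs hL _ _ rfl rfl c hc
  rw [← hc3] at hE
  rw [← ha] at hN
  set N : ℝ := ((K * ((L ^ (2 * s + 2)) ^ s * L + s) : ℕ) : ℝ) with hNdef
  have hN0 : 0 ≤ N := by rw [hNdef]; positivity
  have hLpos : (0 : ℝ) < L := by
    have : (1 : ℝ) ≤ L := by exact_mod_cast hL
    linarith
  have b1 : N ^ s * K * (1 / 2) ^ L ≤ (c ^ s * K) * ((L : ℝ) ^ (a * s) * (1 / 2 : ℝ) ^ L) := by
    have := pow_le_pow_left₀ hN0 hN s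
    rw [mul_pow, ← pow_mul] at this
    calc N ^ s * K * (1 / 2) ^ L ≤ (c ^ s * (L : ℝ) ^ (a * s)) * K * (1 / 2) ^ L := by
          refine mul_le_mul_of_nonneg_right ?_ (by positivity)
          exact mul_le_mul_of_nonneg_right this (by positivity)
      _ = _ := by ring
  have b2 : N ^ (s + 1) * (N * (1 / ((L ^ (2 * s + 2) : ℕ) : ℝ)) ^ (s + 1) +
      (2 * s + 2 : ℝ) ^ 2 * ((s * ((L ^ (2 * s + 2) : ℕ) : ℝ)) * (N + s * ((L ^ (2 * s + 2) : ℕ) : ℝ)) ^ (2 * s + 1) *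
        (1 / ((L ^ (2 * s + 2) : ℕ) : ℝ)) ^ (s * (2 * s + 2)))) ^ t ≤ (c ^ (s + 1) * c3 ^ t) / (L : ℝ) := by
    have g1 := pow_le_pow_left₀ hN0 hN (s + 1)
    rw [mul_pow, ← pow_mul] at g1
    have g2 := pow_le_pow_left₀ (by positivity) hE t
    calc _ ≤ (c ^ (s + 1) * (L : ℝ) ^ (a * (s + 1))) * (c3 / L) ^ t :=
          mul_le_mul g1 g2 (by positivity) (by positivity)
      _ = _ := by
        rw [div_pow, ht, pow_succ (L : ℝ)]
        have : (L : ℝ) ^ (a * (s + 1)) ≠ 0 := by positivity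
        field_simp
  linarith

end Pool.Agent.V1162.CR
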