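import Mathlib
import Pool.Agent.V1162.CR.Cfg
import Pool.Agent.V1162.CR.Num

/-! Existence of a graph without an induced path on `2 s + 2` vertices in which no closed
neighbourhood is covered by `s` others. -/

set_option linter.all false

open Finset

namespace Pool.Agent.V1162.CR

section

variable {K M m : ℕ} [NeZero m]

/-- no vertex of group `j` is joined to all of `S` -/
def Bad1 (S : Finset (Fin K × Fin M)) (j : Fin K) (f : Sym2 (Fin K × Fin M) → Fin m) : Prop :=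
  ∀ i : Fin M, (j, i) ∉ S → ¬ ∀ c ∈ S, f s((j, i), c) = 0

/-- there are `t` disjoint bad configurations -/
def Bad2 (n t : ℕ) (S : Finset (Fin K × Fin M)) (r : Fin K × Fin M)
    (f : Sym2 (Fin K × Fin M) → Fin m) : Prop :=
  ∃ g : Fin t → Finset (Sym2 (Fin K × Fin M)),
      (∀ i, g i ∈ Cfg n S r) ∧ (∀ i j, i ≠ j → Disjoint (g i) (g j)) ∧ ∀ i, Pres f (g i)

open Classical in
lemma card_bad1 {s L : ℕ} (hM : m ^ s * L + s ≤ M) {S : Finset (Fin K × Fin M)}
    (hS : S.card = s) (j : Fin K) :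
    ((univ.filter fun f : Sym2 (Fin K × Fin M) → Fin m => Bad1 S j f).card : ℝ) ≤
      (m : ℝ) ^ (Fintype.card (Sym2 (Fin K × Fin M))) * (1 / 2 : ℝ) ^ L := by
  have h1 : m ^ s * L ≤ (univ.filter (fun i : Fin M => (j, i) ∉ S)).card := by
    have h2 : (univ.filter (fun i : Fin M => (j, i) ∈ S)).card ≤ S.card := by
      refine card_le_card_of_injOn (fun i => (j, i)) ?_ ?_
      · intro i hi
        simpa using hi
      · intro i _ i' _ h
        exact (Prod.ext_iff.1 h).2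
    have h3 := card_filter_add_card_filter_not (s := (univ : Finset (Fin M)))
      (fun i : Fin M => (j, i) ∈ S)
    rw [card_univ, Fintype.card_fin] at h3
    omega
  obtain ⟨T, hT, hTc⟩ := exists_subset_card_eq h1
  let eT : Fin (m ^ s * L) ≃ T := (finCongr hTc.symm).trans T.equivFin.symm
  let eS : Fin s ≃ S := (finCongr hS.symm).trans S.equivFin.symm
  let ι : Fin (m ^ s * L) × Fin s → Sym2 (Fin K × Fin M) := fun p => s((j, (eT p.1).1), (eS p.2).1)
  have hnS : ∀ i, (j, (eT i).1) ∉ S := by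
    intro i
    have := hT (eT i).2
    rw [mem_filter] at this
    exact this.2
  have hι : Function.Injective ι := by
    intro p q h
    simp only [ι, Sym2.eq_iff] at h
    rcases h with ⟨h1, h2⟩ | ⟨h1, h2⟩
    · have e1 : p.1 = q.1 := eT.injective (Subtype.ext (Prod.ext_iff.1 h1).2)
      have e2 : p.2 = q.2 := eS.injective (Subtype.ext h2)
      exact Prod.ext e1 e2
    · exfalso
      refine hnS p.1 ?_
      rw [h1]
      exact (eS q.2).2
  have h2 : (univ.filter fun f : Sym2 (Fin K × Fin M) → Fin m => Bad1 S j f) ⊆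
      (univ.filter fun f : Sym2 (Fin K × Fin M) → Fin m => ∀ i, ¬ ∀ j, f (ι (i, j)) = 0) := by
    intro f hf
    simp only [mem_filter, mem_univ, true_and] at hf ⊢
    intro i hi
    refine hf _ (hnS i) ?_
    intro c hc
    have := hi (eS.symm ⟨c, hc⟩)
    simpa [ι] using this
  have h3 := card_blocks (m := m) (m ^ s * L) s ι hι
  have h4 : ((univ.filter fun f : Sym2 (Fin K × Fin M) → Fin m => Bad1 S j f).card : ℝ) ≤
      ((univ.filter fun f : Sym2 (Fin K × Fin M) → Fin m => ∀ i, ¬ ∀ j, f (ι (i, j)) = 0).card : ℝ) := by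
    exact_mod_cast card_le_card h2
  refine h4.trans ?_
  have h6 : (univ.filter fun f : Sym2 (Fin K × Fin M) → Fin m => ∀ i, ¬ ∀ j, f (ι (i, j)) = 0).card =
    (univ.filter fun f : Sym2 (Fin K × Fin M) → Fin m => ∀ i, ¬ ∀ j, f (ι (i, j)) = 0).card := rfl
  have h5 : (1 - (1 / (m : ℝ)) ^ s) ^ (m ^ s * L) ≤ (1 / 2 : ℝ) ^ L := by
    have := one_sub_pow_le (m ^ s) L (Nat.one_le_pow _ _ (NeZero.pos m))
    push_cast at this
    rw [one_div_pow]
    exact this
  calc _ = (m : ℝ) ^ (Fintype.card (Sym2 (Fin K × Fin M))) * (1 - (1 / (m : ℝ)) ^ s) ^ (m ^ s * L) := by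
        convert h3 using 2
    _ ≤ _ := mul_le_mul_of_nonneg_left h5 (by positivity)

open Classical in
lemma card_bad2 (n t : ℕ) (S : Finset (Fin K × Fin M)) (r : Fin K × Fin M) {E : ℝ}
    (hE : ∑ C ∈ Cfg n S r, (1 / (m : ℝ)) ^ C.card ≤ E) :
    ((univ.filter fun f : Sym2 (Fin K × Fin M) → Fin m => Bad2 n t S r f).card : ℝ) ≤
      (m : ℝ) ^ (Fintype.card (Sym2 (Fin K × Fin M))) * E ^ t := by
  have h1 := card_tuples (m := m) t (Cfg n S r)
  have h2 : (∑ C ∈ Cfg n S r, (1 / (m : ℝ)) ^ C.card) ^ t ≤ E ^ t :=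
    pow_le_pow_left₀ (sum_nonneg fun C _ => by positivity) hE t
  calc _ ≤ (m : ℝ) ^ (Fintype.card (Sym2 (Fin K × Fin M))) *
        (∑ C ∈ Cfg n S r, (1 / (m : ℝ)) ^ C.card) ^ t := by
        convert h1 using 2
        congr 1
        ext f
        simp only [mem_filter, mem_univ, true_and]
        exact Iff.rfl
    _ ≤ _ := mul_le_mul_of_nonneg_left h2 (by positivity)

theorem exists_good {s t L : ℕ} (hM : m ^ s * L + s ≤ M) {E : ℝ}
    (hE : ∀ (S : Finset (Fin K × Fin M)) (r : Fin K × Fin M), S.card = s → r ∉ S →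
      ∑ C ∈ Cfg (2 * s + 2) S r, (1 / (m : ℝ)) ^ C.card ≤ E)
    (hE0 : 0 ≤ E)
    (hnum : ((K * M : ℕ) : ℝ) ^ s * K * (1 / 2) ^ L + ((K * M : ℕ) : ℝ) ^ (s + 1) * E ^ t < 1) :
    ∃ f : Sym2 (Fin K × Fin M) → Fin m, (∀ S : Finset (Fin K × Fin M), S.card = s → ∀ j,
      ¬ Bad1 S j f) ∧ ∀ (S : Finset (Fin K × Fin M)) (r : Fin K × Fin M), S.card = s → r ∉ S →
      ¬ Bad2 (2 * s + 2) t S r f := by
  classical
  set Ω := (m : ℝ) ^ (Fintype.card (Sym2 (Fin K × Fin M))) with hΩ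
  have hΩ0 : 0 < Ω := by
    rw [hΩ]
    have := mpos (m := m)
    positivity
  set 𝒮 : Finset (Finset (Fin K × Fin M)) := powersetCard s univ with h𝒮
  have h𝒮c : (𝒮.card : ℝ) ≤ ((K * M : ℕ) : ℝ) ^ s := by
    rw [h𝒮, card_powersetCard, card_univ, Fintype.card_prod, Fintype.card_fin, Fintype.card_fin]
    exact_mod_cast Nat.choose_le_pow _ _
  set B1 := (𝒮 ×ˢ (univ : Finset (Fin K))).biUnion
    (fun x => univ.filter fun f : Sym2 (Fin K × Fin M) → Fin m => Bad1 x.1 x.2 f) with hB1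
  set B2 := ((𝒮 ×ˢ (univ : Finset (Fin K × Fin M))).filter (fun x => x.2 ∉ x.1)).biUnion
    (fun x => univ.filter fun f : Sym2 (Fin K × Fin M) → Fin m => Bad2 (2 * s + 2) t x.1 x.2 f) with hB2
  have hc1 : (B1.card : ℝ) ≤ (((K * M : ℕ) : ℝ) ^ s * K) * (Ω * (1 / 2 : ℝ) ^ L) := by
    have h1 : (B1.card : ℝ) ≤ ∑ x ∈ 𝒮 ×ˢ (univ : Finset (Fin K)),
        ((univ.filter fun f : Sym2 (Fin K × Fin M) → Fin m => Bad1 x.1 x.2 f).card : ℝ) := by
      exact_mod_cast card_biUnion_le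
    refine h1.trans ?_
    have h2 : ∀ x ∈ 𝒮 ×ˢ (univ : Finset (Fin K)),
        ((univ.filter fun f : Sym2 (Fin K × Fin M) → Fin m => Bad1 x.1 x.2 f).card : ℝ) ≤
          Ω * (1 / 2 : ℝ) ^ L := by
      intro x hx
      rw [mem_product, h𝒮, mem_powersetCard] at hx
      exact card_bad1 hM hx.1.2 x.2
    refine (sum_le_sum h2).trans ?_
    rw [sum_const, nsmul_eq_mul, card_product, card_univ, Fintype.card_fin]
    push_cast
    push_cast at h𝒮c
    exact mul_le_mul_of_nonneg_right (mul_le_mul_of_nonneg_right h𝒮c (by positivity)) (by positivity)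
  have hc2 : (B2.card : ℝ) ≤ (((K * M : ℕ) : ℝ) ^ (s + 1)) * (Ω * E ^ t) := by
    have h1 : (B2.card : ℝ) ≤ ∑ x ∈ (𝒮 ×ˢ (univ : Finset (Fin K × Fin M))).filter (fun x => x.2 ∉ x.1),
        ((univ.filter fun f : Sym2 (Fin K × Fin M) → Fin m => Bad2 (2 * s + 2) t x.1 x.2 f).card : ℝ) := by
      exact_mod_cast card_biUnion_le
    refine h1.trans ?_
    have h2 : ∀ x ∈ (𝒮 ×ˢ (univ : Finset (Fin K × Fin M))).filter (fun x => x.2 ∉ x.1),
        ((univ.filter fun f : Sym2 (Fin K × Fin M) → Fin m => Bad2 (2 * s + 2) t x.1 x.2 f).card : ℝ) ≤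
          Ω * E ^ t := by
      intro x hx
      rw [mem_filter, mem_product, h𝒮, mem_powersetCard] at hx
      exact card_bad2 (2 * s + 2) t x.1 x.2 (hE x.1 x.2 hx.1.1.2 hx.2)
    refine (sum_le_sum h2).trans ?_
    rw [sum_const, nsmul_eq_mul]
    refine mul_le_mul_of_nonneg_right ?_ (by positivity)
    have h3 : ((𝒮 ×ˢ (univ : Finset (Fin K × Fin M))).filter (fun x => x.2 ∉ x.1)).card ≤
        𝒮.card * (K * M) := by
      refine (card_filter_le _ _).trans ?_
      rw [card_product, card_univ, Fintype.card_prod, Fintype.card_fin, Fintype.card_fin]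
    have h4 : (((𝒮 ×ˢ (univ : Finset (Fin K × Fin M))).filter (fun x => x.2 ∉ x.1)).card : ℝ) ≤
        𝒮.card * ((K * M : ℕ) : ℝ) := by exact_mod_cast h3
    refine h4.trans ?_
    rw [pow_succ]
    exact mul_le_mul_of_nonneg_right h𝒮c (by positivity)
  have hlt : (((B1 ∪ B2).card : ℕ) : ℝ) < Ω := by
    have h1 : (((B1 ∪ B2).card : ℕ) : ℝ) ≤ B1.card + B2.card := by
      exact_mod_cast card_union_le _ _
    have h2 : (((K * M : ℕ) : ℝ) ^ s * K) * (Ω * (1 / 2 : ℝ) ^ L) +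
      (((K * M : ℕ) : ℝ) ^ (s + 1)) * (Ω * E ^ t) = Ω * (((K * M : ℕ) : ℝ) ^ s * K * (1 / 2) ^ L +
        ((K * M : ℕ) : ℝ) ^ (s + 1) * E ^ t) := by ring
    have h3 : Ω * (((K * M : ℕ) : ℝ) ^ s * K * (1 / 2) ^ L +
        ((K * M : ℕ) : ℝ) ^ (s + 1) * E ^ t) < Ω * 1 := mul_lt_mul_of_pos_left hnum hΩ0
    linarith
  have hlt' : (B1 ∪ B2).card < (univ : Finset (Sym2 (Fin K × Fin M) → Fin m)).card := by
    rw [card_univ, Fintype.card_fun, Fintype.card_fin]
    rw [hΩ] at hlt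
    exact_mod_cast hlt
  obtain ⟨f, _, hf⟩ := exists_mem_notMem_of_card_lt_card hlt'
  rw [mem_union, not_or, hB1, hB2, mem_biUnion, mem_biUnion] at hf
  refine ⟨f, ?_, ?_⟩
  · intro S hS j hbad
    refine hf.1 ⟨(S, j), ?_, ?_⟩
    · rw [mem_product, h𝒮, mem_powersetCard]
      exact ⟨⟨subset_univ _, hS⟩, mem_univ _⟩
    · rw [mem_filter]
      exact ⟨mem_univ _, hbad⟩
  · intro S r hS hr hbad
    refine hf.2 ⟨(S, r), ?_, ?_⟩
    · rw [mem_filter, mem_product, h𝒮, mem_powersetCard]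
      exact ⟨⟨⟨subset_univ _, hS⟩, mem_univ _⟩, hr⟩
    · rw [mem_filter]
      exact ⟨mem_univ _, hbad⟩

end

theorem exists_graph (s : ℕ) (hs : 2 ≤ s) : ∃ (K M : ℕ) (G : SimpleGraph (Fin K × Fin M)),
    s + 1 ≤ K * M ∧ IsEmpty (SimpleGraph.pathGraph (2 * s + 2) ↪g G) ∧ Evasive G s := by
  classical
  obtain ⟨t, ht⟩ : ∃ t : ℕ, t = ((2 * s + 2) * s + 1) * (s + 1) + 1 := ⟨_, rfl⟩
  obtain ⟨K, hK⟩ : ∃ K : ℕ, K = t * (2 * (2 * s + 2) + 1) + 1 := ⟨_, rfl⟩
  obtain ⟨L, m, M, hL, hm, hM, hnum⟩ := numeric s K t hs ht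
  haveI : NeZero m := ⟨by rw [hm]; positivity⟩
  have hE0 : 0 ≤ (((K * M : ℕ) : ℝ) * (1 / (m : ℝ)) ^ (s + 1) +
      (2 * s + 2 : ℝ) ^ 2 * ((s * m) * (((K * M : ℕ) : ℝ) + s * m) ^ (2 * s + 1) *
        (1 / (m : ℝ)) ^ (s * (2 * s + 2)))) := by positivity
  have hcard : Fintype.card (Fin K × Fin M) = K * M := by simp
  obtain ⟨f, hf1, hf2⟩ := exists_good (K := K) (M := M) (m := m) (s := s) (t := t) (L := L)
    (by rw [hM]) (fun S r hS hr => by
      have := sum_Cfg (m := m) hS hr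
      rw [hcard] at this
      exact this) hE0 hnum
  have hV : s + 1 ≤ K * M := by
    have h1 : s + 1 ≤ M := by
      have : 1 ≤ m ^ s * L := Nat.one_le_iff_ne_zero.2 (by
        have := NeZero.pos m
        positivity)
      omega
    have h2 : 1 ≤ K := by omega
    nlinarith
  obtain ⟨G, hG1, hG2⟩ := det (n := 2 * s + 2) (s := s) (t := t) (by omega) (by rw [hcard]; exact hV) f
    (by
      intro S hS
      have h1 : ∀ j : Fin K, ∃ i : Fin M, (j, i) ∉ S ∧ ∀ c ∈ S, f s((j, i), c) = 0 := by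
        intro j
        have := hf1 S hS j
        unfold Bad1 at this
        push Not at this
        exact this
      choose i hi using h1
      refine ⟨univ.image (fun j => (j, i j)), ?_, ?_⟩
      · rw [card_image_of_injective _ (by
          intro a b h
          exact (Prod.ext_iff.1 h).1), card_univ, Fintype.card_fin, hK]
      · intro v hv
        rw [mem_image] at hv
        obtain ⟨j, _, rfl⟩ := hv
        exact hi j)
    (fun S r hS hr => hf2 S r hS hr)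
  exact ⟨K, M, G, hV, hG1, hG2⟩

end Pool.Agent.V1162.CR
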