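import Mathlib
import Pool.Agent.V1162.CR.Rand

/-! The game of Cops and Robbers, and the final theorem. -/

set_option linter.all false

open Finset

namespace Pool.Agent.V1162.CR

/-- `CopsWinFrom G c r`: with the cops on the vertices `c i`, the robber on `r` and the cops to
move, the cops can force a capture in finitely many moves.  Either some legal move of the cops
puts a cop on the vertex of the robber, or some legal move of the cops leads, for every legal
answer of the robber, to a position from which they can force a capture. -/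
inductive CopsWinFrom {V : Type} (G : SimpleGraph V) {m : ℕ} : (Fin m → V) → V → Prop
  | capture (c c' : Fin m → V) (r : V) (hc : ∀ i, c' i = c i ∨ G.Adj (c i) (c' i))
      (i : Fin m) (hi : c' i = r) : CopsWinFrom G c r
  | move (c c' : Fin m → V) (r : V) (hc : ∀ i, c' i = c i ∨ G.Adj (c i) (c' i))
      (h : ∀ r', (r' = r ∨ G.Adj r r') → CopsWinFrom G c' r') : CopsWinFrom G c r

/-- `m` cops win on `G` -/
def CopsWin {V : Type} (G : SimpleGraph V) (m : ℕ) : Prop :=
  ∃ c : Fin m → V, ∀ r : V, CopsWinFrom G c r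

/-- the cop number -/
noncomputable def copNumber {V : Type} (G : SimpleGraph V) : ℕ := sInf {m | CopsWin G m}

/-- `G` has no induced path on `k` vertices -/
def PathFree {V : Type} (G : SimpleGraph V) (k : ℕ) : Prop :=
  IsEmpty (SimpleGraph.pathGraph k ↪g G)

/-- the set of the problem -/
def setK : Set ℕ := {k | 7 ≤ k ∧ ∃ (V : Type) (_ : Fintype V) (G : SimpleGraph V),
  G.Connected ∧ PathFree G k ∧ (k - 1) / 2 < copNumber G}

lemma not_cops {V : Type} [DecidableEq V] [Fintype V] {G : SimpleGraph V} {s m : ℕ}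
    (hE : Evasive G s) (hm : m ≤ s) (c : Fin m → V) (r : V) (h : CopsWinFrom G c r) :
    (∀ i, c i ≠ r ∧ ¬ G.Adj (c i) r) → False := by
  induction h with
  | capture c c' r hc i hi =>
    intro h
    rcases hc i with h1 | h1
    · exact (h i).1 (h1 ▸ hi)
    · rw [hi] at h1
      exact (h i).2 h1
  | move c c' r hc h ih =>
    intro hcr
    have hr : r ∉ univ.image c' := by
      intro hr
      rw [mem_image] at hr
      obtain ⟨i, _, hi⟩ := hr
      rcases hc i with h1 | h1
      · exact (hcr i).1 (h1 ▸ hi)
      · rw [hi] at h1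
        exact (hcr i).2 h1
    have hcard : (univ.image c').card ≤ s := by
      refine card_image_le.trans ?_
      simpa using hm
    obtain ⟨v, hv1, hv2, hv3⟩ := hE _ hcard r hr
    refine ih v (Or.inr hv1) ?_
    intro i
    refine ⟨?_, ?_⟩
    · intro h
      exact hv2 (h ▸ mem_image_of_mem _ (mem_univ _))
    · intro h
      exact hv3 (c' i) (mem_image_of_mem _ (mem_univ _)) h.symm

lemma not_copsWin {V : Type} [DecidableEq V] [Fintype V] [Nonempty V] {G : SimpleGraph V}
    {s m : ℕ} (hE : Evasive G s) (hm : m ≤ s) : ¬ CopsWin G m := by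
  rintro ⟨c, hc⟩
  have hcard : (univ.image c).card ≤ s := by
    refine card_image_le.trans ?_
    simpa using hm
  -- a vertex not occupied by a cop
  obtain ⟨r, hr⟩ : ∃ r, r ∉ univ.image c := by
    by_contra hcon
    push Not at hcon
    obtain ⟨x⟩ := (inferInstance : Nonempty V)
    have h1 : ((univ.image c).erase x).card ≤ s := (card_le_card (erase_subset _ _)).trans hcard
    obtain ⟨v, hv1, hv2, _⟩ := hE _ h1 x (notMem_erase _ _)
    refine hv2 ?_
    rw [mem_erase]
    exact ⟨fun h => G.loopless.irrefl x (h ▸ hv1), hcon v⟩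
  obtain ⟨v, hv1, hv2, hv3⟩ := hE _ hcard r hr
  refine not_cops hE hm c v (hc v) ?_
  intro i
  refine ⟨?_, ?_⟩
  · intro h
    exact hv2 (h ▸ mem_image_of_mem _ (mem_univ _))
  · intro h
    exact hv3 (c i) (mem_image_of_mem _ (mem_univ _)) h.symm

lemma copsWin_card {V : Type} [Fintype V] (G : SimpleGraph V) : CopsWin G (Fintype.card V) := by
  classical
  let e := Fintype.equivFin V
  refine ⟨e.symm, fun r => ?_⟩
  exact CopsWinFrom.capture _ e.symm r (fun i => Or.inl rfl) (e r) (by simp)

lemma lt_copNumber {V : Type} [DecidableEq V] [Fintype V] [Nonempty V] {G : SimpleGraph V}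
    {s : ℕ} (hE : Evasive G s) : s < copNumber G := by
  by_contra hcon
  push Not at hcon
  have h1 : copNumber G ∈ {m | CopsWin G m} :=
    Nat.sInf_mem (s := {m | CopsWin G m}) ⟨_, copsWin_card G⟩
  exact not_copsWin hE hcon h1

lemma Evasive.component {V : Type} [DecidableEq V] [Fintype V] {G : SimpleGraph V} {s : ℕ}
    (hE : Evasive G s) (C : G.ConnectedComponent) : Evasive C.toSimpleGraph s := by
  classical
  intro S hS r hr
  have h1 : (S.image (fun x : C => x.1)).card ≤ s := card_image_le.trans hS
  have h2 : r.1 ∉ S.image (fun x : C => x.1) := by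
    intro h
    rw [mem_image] at h
    obtain ⟨x, hx, hxr⟩ := h
    have : x = r := Subtype.ext hxr
    rw [this] at hx
    exact hr hx
  obtain ⟨v, hv1, hv2, hv3⟩ := hE _ h1 r.1 h2
  have hvC : v ∈ C.supp := (C.mem_supp_congr_adj hv1).1 r.2
  refine ⟨⟨v, hvC⟩, hv1, ?_, ?_⟩
  · intro h
    exact hv2 (mem_image_of_mem (fun x : C => x.1) h)
  · intro c hc h
    exact hv3 c.1 (mem_image_of_mem (fun x : C => x.1) hc) h

theorem even_mem (s : ℕ) (hs : 3 ≤ s) : 2 * s + 2 ∈ setK := by
  classical
  obtain ⟨K, M, G, hV, hG, hE⟩ := exists_graph s (by omega)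
  have hpos : 0 < K * M := by omega
  have hK : 0 < K := by
    rcases Nat.eq_zero_or_pos K with h | h
    · rw [h] at hpos; simp at hpos
    · exact h
  have hM : 0 < M := by
    rcases Nat.eq_zero_or_pos M with h | h
    · rw [h] at hpos; simp at hpos
    · exact h
  let C : G.ConnectedComponent := G.connectedComponentMk (⟨0, hK⟩, ⟨0, hM⟩)
  haveI : Fintype C := Fintype.ofFinite _
  refine ⟨by omega, C, inferInstance, C.toSimpleGraph, C.connected_toSimpleGraph, ?_, ?_⟩
  · constructor
    intro e
    exact hG.false (e.trans (SimpleGraph.Embedding.induce C.supp))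
  · haveI : Nonempty C := ⟨⟨(⟨0, hK⟩, ⟨0, hM⟩), rfl⟩⟩
    have := lt_copNumber (hE.component C)
    omega

end Pool.Agent.V1162.CR
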