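import Mathlib

/-! The choice of the parameters for the glued graphs. -/

set_option linter.all false

open Finset Filter Topology

namespace Pool.Agent.V1162.CR

lemma num_bound2 {A q : ℕ} {L : ℕ} (hL : 1 ≤ L) (m M : ℕ) (hm : m = (2 * L) ^ 6)
    (hM : M = m ^ 2 * 2 ^ (q + 1) * L + (q + 1)) (c : ℝ) (hc : c = (A : ℝ) * (2 ^ (q + 1) + (q + 1)) + 2) :
    ((A * M : ℕ) : ℝ) ≤ (c * 4096) * (L : ℝ) ^ 13 ∧
    (((A * M : ℕ) : ℝ) * (1 / (m : ℝ)) ^ 3 +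
      36 * ((2 * m) * (((A * M : ℕ) : ℝ) + 2 * m) ^ 5 * (1 / (m : ℝ)) ^ 12)) ≤
      (c + 72 * c ^ 5) / L := by
  have hL1 : (1 : ℝ) ≤ L := by exact_mod_cast hL
  have hL0 : (0 : ℝ) < L := by linarith
  have hA0 : (0 : ℝ) ≤ A := by positivity
  have hq0 : (0 : ℝ) ≤ q := by positivity
  have hmR : (m : ℝ) = 64 * (L : ℝ) ^ 6 := by rw [hm]; push_cast; ring
  have hm1 : (1 : ℝ) ≤ m := by
    rw [hmR]
    have := one_le_pow₀ hL1 (n := 6)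
    linarith
  have hm0 : (0 : ℝ) < m := by linarith
  have hc0 : 0 ≤ c := by rw [hc]; positivity
  set Q : ℝ := (m : ℝ) ^ 2 * L with hQ
  have hmQ : (m : ℝ) ≤ Q := by
    rw [hQ]
    nlinarith
  have hQ1 : 1 ≤ Q := hm1.trans hmQ
  have hMR : (M : ℝ) = Q * 2 ^ (q + 1) + (q + 1) := by rw [hM]; push_cast; rw [hQ]; ring
  have hN : ((A * M : ℕ) : ℝ) + 2 * m ≤ c * Q := by
    push_cast
    rw [hMR, hc]
    have h1 : (A : ℝ) * (Q * 2 ^ (q + 1) + (q + 1)) ≤ A * ((2 ^ (q + 1) + (q + 1)) * Q) := by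
      refine mul_le_mul_of_nonneg_left ?_ hA0
      nlinarith
    nlinarith
  have hN' : ((A * M : ℕ) : ℝ) ≤ c * Q := by
    have : 0 ≤ 2 * (m : ℝ) := by positivity
    linarith
  have hQL : Q = 4096 * (L : ℝ) ^ 13 := by
    rw [hQ, hmR]; ring
  refine ⟨by rw [mul_assoc, ← hQL]; exact hN', ?_⟩
  have hLm : (L : ℝ) / m ≤ 1 / L := by
    rw [div_le_div_iff₀ hm0 hL0, hmR, one_mul]
    have : (L : ℝ) * L ≤ (L : ℝ) ^ 6 := by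
      calc (L : ℝ) * L = (L : ℝ) ^ 2 := by ring
        _ ≤ (L : ℝ) ^ 6 := pow_le_pow_right₀ hL1 (by omega)
    have h6 : 0 ≤ (L : ℝ) ^ 6 := by positivity
    linarith
  have hL5m : (L : ℝ) ^ 5 / m ≤ 1 / L := by
    rw [div_le_div_iff₀ hm0 hL0, hmR, one_mul]
    have : (L : ℝ) ^ 5 * L = (L : ℝ) ^ 6 := by ring
    have h6 : 0 ≤ (L : ℝ) ^ 6 := by positivity
    linarith
  have hA' : ((A * M : ℕ) : ℝ) * (1 / (m : ℝ)) ^ 3 ≤ c / L := by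
    have h1 : ((A * M : ℕ) : ℝ) * (1 / (m : ℝ)) ^ 3 ≤ c * Q * (1 / (m : ℝ)) ^ 3 :=
      mul_le_mul_of_nonneg_right hN' (by positivity)
    refine h1.trans ?_
    have h2 : c * Q * (1 / (m : ℝ)) ^ 3 = c * (L / m) := by
      rw [hQ]
      field_simp
    rw [h2, div_eq_mul_one_div c (L : ℝ)]
    exact mul_le_mul_of_nonneg_left hLm hc0
  have hB : 36 * ((2 * m) * (((A * M : ℕ) : ℝ) + 2 * m) ^ 5 * (1 / (m : ℝ)) ^ 12) ≤
      72 * c ^ 5 / L := by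
    have h1 : (((A * M : ℕ) : ℝ) + 2 * m) ^ 5 ≤ (c * Q) ^ 5 :=
      pow_le_pow_left₀ (by positivity) hN _
    have h2 : 36 * ((2 * m) * (((A * M : ℕ) : ℝ) + 2 * m) ^ 5 * (1 / (m : ℝ)) ^ 12) ≤
        36 * ((2 * m) * (c * Q) ^ 5 * (1 / (m : ℝ)) ^ 12) := by
      refine mul_le_mul_of_nonneg_left ?_ (by positivity)
      refine mul_le_mul_of_nonneg_right ?_ (by positivity)
      exact mul_le_mul_of_nonneg_left h1 (by positivity)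
    refine h2.trans ?_
    have h3 : 36 * ((2 * (m : ℝ)) * (c * Q) ^ 5 * (1 / (m : ℝ)) ^ 12) =
        (72 * c ^ 5) * ((L : ℝ) ^ 5 / m) := by
      rw [hQ]
      field_simp
      ring
    rw [h3, div_eq_mul_one_div _ (L : ℝ)]
    exact mul_le_mul_of_nonneg_left hL5m (by positivity)
  rw [add_div]
  exact add_le_add hA' hB

lemma num_aux (a b L : ℝ) (hL : L ≠ 0) (t : ℕ) : (a * L ^ t) * (b / L) ^ (t + 1) = a * b ^ (t + 1) / L := by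
  rw [div_pow, pow_succ L]
  have : L ^ t ≠ 0 := pow_ne_zero _ hL
  field_simp

theorem numeric2 (A q B t : ℕ) (ht : t = 13 * 3 + 1) :
    ∃ L m M : ℕ, 1 ≤ L ∧ m = (2 * L) ^ 6 ∧ M = m ^ 2 * 2 ^ (q + 1) * L + (q + 1) ∧
    (B : ℝ) * ((A * M : ℕ) : ℝ) ^ (q + 1) * (1 / 2) ^ L + ((A * M : ℕ) : ℝ) ^ 3 *
    (((A * M : ℕ) : ℝ) * (1 / (m : ℝ)) ^ 3 +
      36 * ((2 * m) * (((A * M : ℕ) : ℝ) + 2 * m) ^ 5 * (1 / (m : ℝ)) ^ 12)) ^ t < 1 := by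
  obtain ⟨c, hc⟩ : ∃ c : ℝ, c = (A : ℝ) * (2 ^ (q + 1) + (q + 1)) + 2 := ⟨_, rfl⟩
  have hc0 : 0 ≤ c := by rw [hc]; positivity
  obtain ⟨c3, hc3⟩ : ∃ c3 : ℝ, c3 = (c + 72 * c ^ 5) := ⟨_, rfl⟩
  have hc30 : 0 ≤ c3 := by rw [hc3]; positivity
  obtain ⟨c2, hc2⟩ : ∃ c2 : ℝ, c2 = c * 4096 := ⟨_, rfl⟩
  have hc20 : 0 ≤ c2 := by rw [hc2]; positivity
  have h1 : Tendsto (fun L : ℕ => (B * c2 ^ (q + 1)) * ((L : ℝ) ^ (13 * (q + 1)) * (1 / 2 : ℝ) ^ L))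
      atTop (𝓝 0) := by
    have := tendsto_pow_const_mul_const_pow_of_abs_lt_one (13 * (q + 1)) (r := (1 / 2 : ℝ))
      (by rw [abs_of_pos] <;> norm_num)
    simpa using this.const_mul (B * c2 ^ (q + 1))
  have h2 : Tendsto (fun L : ℕ => (c2 ^ 3 * c3 ^ t) / (L : ℝ)) atTop (𝓝 0) :=
    tendsto_const_div_atTop_nhds_zero_nat _
  have e1 := h1.eventually (gt_mem_nhds (show (0 : ℝ) < 1 / 2 by norm_num))
  have e2 := h2.eventually (gt_mem_nhds (show (0 : ℝ) < 1 / 2 by norm_num))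
  obtain ⟨L, ⟨hL1, hL2⟩, hL⟩ := ((e1.and e2).and (eventually_ge_atTop 1)).exists
  obtain ⟨m, hm⟩ : ∃ m : ℕ, m = (2 * L) ^ 6 := ⟨_, rfl⟩
  obtain ⟨M, hM⟩ : ∃ M : ℕ, M = m ^ 2 * 2 ^ (q + 1) * L + (q + 1) := ⟨_, rfl⟩
  refine ⟨L, m, M, hL, hm, hM, ?_⟩
  obtain ⟨hN, hE⟩ := num_bound2 (A := A) (q := q) hL m M hm hM c hc
  rw [← hc3] at hE
  rw [← hc2] at hN
  obtain ⟨N, hNdef⟩ : ∃ N : ℝ, N = ((A * M : ℕ) : ℝ) := ⟨_, rfl⟩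
  rw [← hNdef] at hN hE ⊢
  have hN0 : 0 ≤ N := by rw [hNdef]; positivity
  have hLpos : (0 : ℝ) < L := by
    have : (1 : ℝ) ≤ L := by exact_mod_cast hL
    linarith
  have b1 : (B : ℝ) * N ^ (q + 1) * (1 / 2) ^ L ≤
      (B * c2 ^ (q + 1)) * ((L : ℝ) ^ (13 * (q + 1)) * (1 / 2 : ℝ) ^ L) := by
    have := pow_le_pow_left₀ hN0 hN (q + 1)
    rw [mul_pow, ← pow_mul] at this
    calc (B : ℝ) * N ^ (q + 1) * (1 / 2) ^ L ≤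
        (B : ℝ) * (c2 ^ (q + 1) * (L : ℝ) ^ (13 * (q + 1))) * (1 / 2) ^ L := by
          refine mul_le_mul_of_nonneg_right ?_ (by positivity)
          exact mul_le_mul_of_nonneg_left this (by positivity)
      _ = _ := by ring
  have b2 : N ^ 3 * (N * (1 / (m : ℝ)) ^ 3 +
      36 * ((2 * m) * (N + 2 * m) ^ 5 * (1 / (m : ℝ)) ^ 12)) ^ t ≤ (c2 ^ 3 * c3 ^ t) / (L : ℝ) := by
    have g1 := pow_le_pow_left₀ hN0 hN 3
    rw [mul_pow, ← pow_mul] at g1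
    obtain ⟨E, hEd⟩ : ∃ E : ℝ, E = (N * (1 / (m : ℝ)) ^ 3 +
      36 * ((2 * m) * (N + 2 * m) ^ 5 * (1 / (m : ℝ)) ^ 12)) := ⟨_, rfl⟩
    have hE0 : 0 ≤ E := by rw [hEd]; positivity
    rw [← hEd] at hE ⊢
    have g2 := pow_le_pow_left₀ hE0 hE t
    have g3 := num_aux (c2 ^ 3) c3 (L : ℝ) hLpos.ne' (13 * 3)
    rw [← ht] at g3
    rw [← g3]
    exact mul_le_mul g1 g2 (pow_nonneg hE0 _) (by positivity)
  linarith

end Pool.Agent.V1162.CR
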