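import Mathlib
import Pool.Agent.V1162.CR.Cfg
import Pool.Agent.V1162.CR.Det2
import Pool.Agent.V1162.CR.Num2
import Pool.Agent.V1162.CR.Game

/-! Existence of the glued graphs. -/

set_option linter.all false

open Finset

namespace Pool.Agent.V1162.CR

section blocks

variable {B : Type} [Fintype B] [DecidableEq B] {m : ℕ} [NeZero m]

/-- No block lies in `T`. -/
lemma card_blocks2 {J : Type} [Fintype J] [DecidableEq J] (n : ℕ) (ι : Fin n × J → B)
    (hι : Function.Injective ι) (T : Finset (J → Fin m)) :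
    ((univ.filter fun f : B → Fin m => ∀ i, (fun j => f (ι (i, j))) ∉ T).card : ℝ) =
      (m : ℝ) ^ (Fintype.card B) * (1 - T.card * (1 / (m : ℝ)) ^ (Fintype.card J)) ^ n := by
  classical
  have h1 := card_marginal (m := m) ι hι (fun g => ∀ i, (fun j => g (i, j)) ∉ T)
  rw [h1]
  congr 1
  have h2 : (univ.filter fun g : Fin n × J → Fin m => ∀ i, (fun j => g (i, j)) ∉ T).card =
      (Fintype.piFinset (fun _ : Fin n => (univ : Finset (J → Fin m)) \ T)).card := by
    refine Finset.card_bij (fun g _ => fun i j => g (i, j)) ?_ ?_ ?_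
    · intro g hg
      simp only [mem_filter, mem_univ, true_and] at hg
      rw [Fintype.mem_piFinset]
      intro i
      rw [mem_sdiff]
      exact ⟨mem_univ _, hg i⟩
    · intro g _ g' _ h
      funext x
      have := congrFun (congrFun h x.1) x.2
      simpa using this
    · intro h hh
      rw [Fintype.mem_piFinset] at hh
      refine ⟨fun x => h x.1 x.2, ?_, rfl⟩
      simp only [mem_filter, mem_univ, true_and]
      intro i
      have := hh i
      rw [mem_sdiff] at this
      exact this.2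
  have hTle : T.card ≤ m ^ (Fintype.card J) := by
    have := card_le_univ T
    rwa [Fintype.card_fun, Fintype.card_fin] at this
  rw [h2, Fintype.card_piFinset]
  simp only [prod_const, Finset.card_univ, Fintype.card_fin, Fintype.card_prod]
  rw [card_sdiff_of_subset (subset_univ _), Finset.card_univ, Fintype.card_fun, Fintype.card_fin]
  have hm := (mpos (m := m)).ne'
  push_cast [Nat.cast_sub hTle]
  rw [mul_comm n, pow_mul, ← mul_pow]
  congr 1
  rw [one_div_pow]
  field_simp

lemma card_lo : (univ.filter (fun x : Fin m => lo x)).card = m / 2 := by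
  have h : (univ.filter (fun x : Fin m => lo x)).card = (range (m / 2)).card := by
    refine card_bij (fun x _ => x.val) ?_ ?_ ?_
    · intro x hx
      simp only [mem_filter, mem_univ, true_and, lo] at hx
      rw [mem_range]
      exact hx
    · intro x _ y _ h
      exact Fin.ext h
    · intro a ha
      rw [mem_range] at ha
      have : 0 < m := NeZero.pos m
      refine ⟨⟨a, by omega⟩, ?_, rfl⟩
      simp only [mem_filter, mem_univ, true_and, lo]
      exact ha
  rw [h, card_range]

end blocks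

section

variable {P K M m : ℕ} [NeZero m]

/-- the good vertices of piece `p` at `S, r` -/
def Good (S : Finset (Fin P × Fin K × Fin M)) (r : Fin P × Fin K × Fin M) (p : Fin P)
    (f : Sym2 (Fin P × Fin K × Fin M) → Fin m) (v : Fin P × Fin K × Fin M) : Prop :=
  v ∉ S ∧ v ≠ r ∧ (∀ c ∈ S, c.1 = p → f s(v, c) = 0) ∧ (∀ c ∈ S, c.1 ≠ p → lo (f s(v, c))) ∧
    (r.1 ≠ p → ¬ lo (f s(v, r)))

/-- no vertex of group `j` of piece `p` is good -/
def BadG (S : Finset (Fin P × Fin K × Fin M)) (r : Fin P × Fin K × Fin M) (p : Fin P) (j : Fin K)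
    (f : Sym2 (Fin P × Fin K × Fin M) → Fin m) : Prop :=
  ∀ i : Fin M, ¬ Good S r p f (p, j, i)

/-- there are `t` disjoint bad configurations -/
def BadC (t : ℕ) (S : Finset (Fin P × Fin K × Fin M)) (r : Fin P × Fin K × Fin M)
    (f : Sym2 (Fin P × Fin K × Fin M) → Fin m) : Prop :=
  ∃ g : Fin t → Finset (Sym2 (Fin P × Fin K × Fin M)),
      (∀ i, g i ∈ Cfg 6 S r) ∧ (∀ i j, i ≠ j → Disjoint (g i) (g j)) ∧ ∀ i, Pres f (g i)

open Classical in
lemma card_badG {q L : ℕ} (h2m : 2 ∣ m) (hM : m ^ 2 * 2 ^ (q + 1) * L + (q + 1) ≤ M)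
    {S : Finset (Fin P × Fin K × Fin M)} {r : Fin P × Fin K × Fin M} {p : Fin P}
    (hS : S.card ≤ q) (hr : r ∉ S) (hSp : (S.filter (fun v => v.1 = p)).card ≤ 2) (j : Fin K) :
    ((univ.filter fun f : Sym2 (Fin P × Fin K × Fin M) → Fin m => BadG S r p j f).card : ℝ) ≤
      (m : ℝ) ^ (Fintype.card (Sym2 (Fin P × Fin K × Fin M))) * (1 / 2 : ℝ) ^ L := by
  set D := insert r S with hD
  have hDc : D.card ≤ q + 1 := by
    rw [hD, card_insert_of_notMem hr]
    omega
  have hmp := mpos (m := m)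
  have h1 : m ^ 2 * 2 ^ (q + 1) * L ≤ (univ.filter (fun i : Fin M => (p, j, i) ∉ D)).card := by
    have h2 : (univ.filter (fun i : Fin M => (p, j, i) ∈ D)).card ≤ D.card := by
      refine card_le_card_of_injOn (fun i => (p, j, i)) ?_ ?_
      · intro i hi
        simpa using hi
      · intro i _ i' _ h
        simpa using h
    have h3 := card_filter_add_card_filter_not (s := (univ : Finset (Fin M)))
      (fun i : Fin M => (p, j, i) ∈ D)
    rw [card_univ, Fintype.card_fin] at h3
    omega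
  obtain ⟨T, hT, hTc⟩ := exists_subset_card_eq h1
  let eT : Fin (m ^ 2 * 2 ^ (q + 1) * L) ≃ T := (finCongr hTc.symm).trans T.equivFin.symm
  let ι : Fin (m ^ 2 * 2 ^ (q + 1) * L) × {x // x ∈ D} → Sym2 (Fin P × Fin K × Fin M) :=
    fun x => s((p, j, (eT x.1).1), x.2.1)
  have hnD : ∀ i, (p, j, (eT i).1) ∉ D := by
    intro i
    have := hT (eT i).2
    rw [mem_filter] at this
    exact this.2
  have hι : Function.Injective ι := by
    intro x y h
    simp only [ι, Sym2.eq_iff] at h
    rcases h with ⟨h1, h2⟩ | ⟨h1, h2⟩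
    · have e1 : x.1 = y.1 := eT.injective (Subtype.ext (by simpa using h1))
      have e2 : x.2 = y.2 := Subtype.ext h2
      exact Prod.ext e1 e2
    · exfalso
      refine hnD x.1 ?_
      rw [h1]
      exact y.2.2
  -- the pattern
  let U : {x // x ∈ D} → Finset (Fin m) := fun c =>
    if c.1 = r then (if r.1 = p then univ else univ.filter (fun x => ¬ lo x)) else
      (if c.1.1 = p then {0} else univ.filter (fun x => lo x))
  let TT : Finset ({x // x ∈ D} → Fin m) := Fintype.piFinset U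
  have h2 : (univ.filter fun f : Sym2 (Fin P × Fin K × Fin M) → Fin m => BadG S r p j f) ⊆
      (univ.filter fun f : Sym2 (Fin P × Fin K × Fin M) → Fin m =>
        ∀ i, (fun c => f (ι (i, c))) ∉ TT) := by
    intro f hf
    simp only [mem_filter, mem_univ, true_and] at hf ⊢
    intro i hi
    rw [Fintype.mem_piFinset] at hi
    have hnD' := hnD i
    rw [hD, mem_insert, not_or] at hnD'
    refine hf _ ⟨hnD'.2, hnD'.1, ?_, ?_, ?_⟩
    · intro c hc hcp
      have hcD : c ∈ D := mem_insert_of_mem hc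
      have hcr : c ≠ r := fun h => hr (h ▸ hc)
      have := hi ⟨c, hcD⟩
      simp only [U, ι, if_neg hcr, if_pos hcp, mem_singleton] at this
      exact this
    · intro c hc hcp
      have hcD : c ∈ D := mem_insert_of_mem hc
      have hcr : c ≠ r := fun h => hr (h ▸ hc)
      have := hi ⟨c, hcD⟩
      simp only [U, ι, if_neg hcr, if_neg hcp, mem_filter, mem_univ, true_and] at this
      exact this
    · intro hrp
      have hrD : r ∈ D := mem_insert_self _ _
      have := hi ⟨r, hrD⟩
      simp only [U, ι, if_true, if_neg hrp, mem_filter, mem_univ, true_and] at this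
      exact this
  have h3 := card_blocks2 (m := m) (m ^ 2 * 2 ^ (q + 1) * L) ι hι TT
  -- lower bound for the pattern
  obtain ⟨h, hh⟩ := h2m
  have hlo : ((univ.filter (fun x : Fin m => lo x)).card : ℝ) = m * (1 / 2) := by
    rw [card_lo]
    have : m / 2 = h := by omega
    rw [this]
    rw [hh]
    push_cast
    ring
  have hnlo : ((univ.filter (fun x : Fin m => ¬ lo x)).card : ℝ) = m * (1 / 2) := by
    have h4 := card_filter_add_card_filter_not (s := (univ : Finset (Fin m))) (fun x => lo x)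
    rw [card_univ, Fintype.card_fin] at h4
    have h5 : ((univ.filter (fun x : Fin m => lo x)).card : ℝ) +
      ((univ.filter (fun x : Fin m => ¬ lo x)).card : ℝ) = m := by exact_mod_cast h4
    rw [hlo] at h5
    linarith
  let w : Fin P × Fin K × Fin M → ℝ := fun c => if c = r then (1 / 2) else
    (if c.1 = p then 1 / (m : ℝ) else 1 / 2)
  have hw : ∀ c : {x // x ∈ D}, (m : ℝ) * w c.1 ≤ ((U c).card : ℝ) := by
    intro c
    by_cases hc : c.1 = r
    · simp only [w, U, if_pos hc]
      by_cases hrp : r.1 = p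
      · rw [if_pos hrp, card_univ, Fintype.card_fin]
        linarith
      · rw [if_neg hrp, hnlo]
    · simp only [w, U, if_neg hc]
      by_cases hcp : c.1.1 = p
      · rw [if_pos hcp, if_pos hcp, card_singleton, mul_one_div_cancel hmp.ne']
        simp
      · rw [if_neg hcp, if_neg hcp, hlo]
  have hw0 : ∀ c, 0 ≤ w c := by
    intro c
    simp only [w]
    split_ifs <;> positivity
  have hm1 : 1 / (m : ℝ) ≤ 1 := by
    rw [div_le_one hmp]
    have := NeZero.one_le (n := m)
    exact_mod_cast this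
  have hTT : (m : ℝ) ^ (Fintype.card {x // x ∈ D}) * ((1 / (m : ℝ)) ^ 2 * (1 / 2) ^ (q + 1)) ≤ TT.card := by
    have e1 : (TT.card : ℝ) = ∏ c, ((U c).card : ℝ) := by
      simp only [TT, Fintype.card_piFinset]
      push_cast
      rfl
    rw [e1]
    have e2 : ∏ c : {x // x ∈ D}, ((m : ℝ) * w c.1) ≤ ∏ c, ((U c).card : ℝ) :=
      prod_le_prod (fun c _ => mul_nonneg hmp.le (hw0 _)) (fun c _ => hw c)
    refine le_trans ?_ e2
    rw [prod_mul_distrib, prod_const, Finset.card_univ]
    refine mul_le_mul_of_nonneg_left ?_ (by positivity)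
    rw [Finset.prod_coe_sort D w, hD, prod_insert hr]
    have e3 : w r = 1 / 2 := by simp only [w, if_true]
    have e4 : ∏ c ∈ S, w c = ∏ c ∈ S, (if c.1 = p then 1 / (m : ℝ) else 1 / 2) := by
      refine prod_congr rfl ?_
      intro c hc
      have hcr : c ≠ r := fun h => hr (h ▸ hc)
      simp only [w, if_neg hcr]
    rw [e3, e4, prod_ite, prod_const, prod_const]
    have e5 : (1 / (m : ℝ)) ^ 2 ≤ (1 / (m : ℝ)) ^ (S.filter (fun v => v.1 = p)).card :=
      pow_le_pow_of_le_one (by positivity) hm1 hSp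
    have e6 : (1 / 2 : ℝ) ^ q ≤ (1 / 2 : ℝ) ^ (S.filter (fun v => ¬ v.1 = p)).card :=
      pow_le_pow_of_le_one (by norm_num) (by norm_num) ((card_filter_le _ _).trans hS)
    calc (1 / (m : ℝ)) ^ 2 * (1 / 2) ^ (q + 1) = 1 / 2 * ((1 / (m : ℝ)) ^ 2 * (1 / 2) ^ q) := by
          rw [pow_succ]; ring
      _ ≤ _ := by
          refine mul_le_mul_of_nonneg_left ?_ (by norm_num)
          exact mul_le_mul e5 e6 (by positivity) (by positivity)
  have hx1 : 1 ≤ m ^ 2 * 2 ^ (q + 1) := Nat.one_le_iff_ne_zero.2 (by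
    have := NeZero.pos m
    positivity)
  have h5 : (1 - TT.card * (1 / (m : ℝ)) ^ (Fintype.card {x // x ∈ D})) ^ (m ^ 2 * 2 ^ (q + 1) * L) ≤
      (1 / 2 : ℝ) ^ L := by
    refine le_trans ?_ (one_sub_pow_le (m ^ 2 * 2 ^ (q + 1)) L hx1)
    have e7 : 1 / ((m ^ 2 * 2 ^ (q + 1) : ℕ) : ℝ) = (1 / (m : ℝ)) ^ 2 * (1 / 2) ^ (q + 1) := by
      push_cast
      rw [one_div_pow, one_div_pow]
      field_simp
    have e8 : (m : ℝ) ^ (Fintype.card {x // x ∈ D}) * (1 / (m : ℝ)) ^ (Fintype.card {x // x ∈ D}) = 1 := by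
      rw [← mul_pow, mul_one_div_cancel hmp.ne', one_pow]
    have e9 : (1 / (m : ℝ)) ^ 2 * (1 / 2) ^ (q + 1) ≤
        TT.card * (1 / (m : ℝ)) ^ (Fintype.card {x // x ∈ D}) := by
      have := mul_le_mul_of_nonneg_right hTT (show 0 ≤ (1 / (m : ℝ)) ^ (Fintype.card {x // x ∈ D}) by positivity)
      calc (1 / (m : ℝ)) ^ 2 * (1 / 2) ^ (q + 1) = ((m : ℝ) ^ (Fintype.card {x // x ∈ D}) * (1 / (m : ℝ)) ^ (Fintype.card {x // x ∈ D})) * ((1 / (m : ℝ)) ^ 2 * (1 / 2) ^ (q + 1)) := by
            rw [e8, one_mul]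
        _ = (m : ℝ) ^ (Fintype.card {x // x ∈ D}) * ((1 / (m : ℝ)) ^ 2 * (1 / 2) ^ (q + 1)) * (1 / (m : ℝ)) ^ (Fintype.card {x // x ∈ D}) := by ring
        _ ≤ _ := this
    have e10 : (TT.card : ℝ) * (1 / (m : ℝ)) ^ (Fintype.card {x // x ∈ D}) ≤ 1 := by
      have : (TT.card : ℝ) ≤ (m : ℝ) ^ (Fintype.card {x // x ∈ D}) := by
        have := card_le_univ TT
        rw [Fintype.card_fun, Fintype.card_fin] at this
        exact_mod_cast this
      calc (TT.card : ℝ) * (1 / (m : ℝ)) ^ (Fintype.card {x // x ∈ D}) ≤ (m : ℝ) ^ (Fintype.card {x // x ∈ D}) * (1 / (m : ℝ)) ^ (Fintype.card {x // x ∈ D}) :=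
            mul_le_mul_of_nonneg_right this (by positivity)
        _ = 1 := e8
    refine pow_le_pow_left₀ (by linarith) ?_ _
    rw [e7]
    linarith
  have h6 : ((univ.filter fun f : Sym2 (Fin P × Fin K × Fin M) → Fin m => BadG S r p j f).card : ℝ) ≤
      ((univ.filter fun f : Sym2 (Fin P × Fin K × Fin M) → Fin m =>
        ∀ i, (fun c => f (ι (i, c))) ∉ TT).card : ℝ) := by
    exact_mod_cast card_le_card h2
  refine h6.trans ?_
  calc _ = (m : ℝ) ^ (Fintype.card (Sym2 (Fin P × Fin K × Fin M))) *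
      (1 - TT.card * (1 / (m : ℝ)) ^ (Fintype.card {x // x ∈ D})) ^ (m ^ 2 * 2 ^ (q + 1) * L) := by
        convert h3 using 2
    _ ≤ _ := mul_le_mul_of_nonneg_left h5 (by positivity)

open Classical in
lemma card_badC (t : ℕ) (S : Finset (Fin P × Fin K × Fin M)) (r : Fin P × Fin K × Fin M) {E : ℝ}
    (hE : ∑ C ∈ Cfg 6 S r, (1 / (m : ℝ)) ^ C.card ≤ E) :
    ((univ.filter fun f : Sym2 (Fin P × Fin K × Fin M) → Fin m => BadC t S r f).card : ℝ) ≤
      (m : ℝ) ^ (Fintype.card (Sym2 (Fin P × Fin K × Fin M))) * E ^ t := by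
  have h1 := card_tuples (m := m) t (Cfg 6 S r)
  have h2 : (∑ C ∈ Cfg 6 S r, (1 / (m : ℝ)) ^ C.card) ^ t ≤ E ^ t :=
    pow_le_pow_left₀ (sum_nonneg fun C _ => by positivity) hE t
  calc _ ≤ (m : ℝ) ^ (Fintype.card (Sym2 (Fin P × Fin K × Fin M))) *
        (∑ C ∈ Cfg 6 S r, (1 / (m : ℝ)) ^ C.card) ^ t := by
        convert h1 using 2
        congr 1
        ext f
        simp only [mem_filter, mem_univ, true_and]
        exact Iff.rfl
    _ ≤ _ := mul_le_mul_of_nonneg_left h2 (by positivity)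

end

end Pool.Agent.V1162.CR
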