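import Mathlib
import Pool.Agent.V1162.CR.Rand2

/-! Glued graphs: existence, and the final theorem on cop numbers. -/

set_option linter.all false

open Finset

namespace Pool.Agent.V1162.CR

section

variable {P K M m : ℕ} [NeZero m]

lemma card_small (V : Type) [Fintype V] [DecidableEq V] (q : ℕ) (hV : 1 ≤ Fintype.card V) :
    (univ.filter (fun S : Finset V => S.card ≤ q)).card ≤ (q + 1) * Fintype.card V ^ q := by
  have h1 : univ.filter (fun S : Finset V => S.card ≤ q) ⊆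
      (range (q + 1)).biUnion (fun j => powersetCard j univ) := by
    intro S hS
    rw [mem_filter] at hS
    rw [mem_biUnion]
    refine ⟨S.card, by rw [mem_range]; omega, ?_⟩
    rw [mem_powersetCard]
    exact ⟨subset_univ _, rfl⟩
  refine (card_le_card h1).trans (card_biUnion_le.trans ?_)
  have h2 : ∀ j ∈ range (q + 1), (powersetCard j (univ : Finset V)).card ≤ Fintype.card V ^ q := by
    intro j hj
    rw [mem_range] at hj
    rw [card_powersetCard, card_univ]
    exact (Nat.choose_le_pow _ _).trans (Nat.pow_le_pow_right hV (by omega))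
  refine (sum_le_sum h2).trans ?_
  rw [sum_const, card_range, smul_eq_mul]

theorem exists_f {t q L : ℕ} (h2m : 2 ∣ m) (hM : m ^ 2 * 2 ^ (q + 1) * L + (q + 1) ≤ M)
    (hPK : 1 ≤ P * K * M) {E : ℝ}
    (hE : ∀ (S : Finset (Fin P × Fin K × Fin M)) (r : Fin P × Fin K × Fin M), S.card = 2 → r ∉ S →
      ∑ C ∈ Cfg 6 S r, (1 / (m : ℝ)) ^ C.card ≤ E)
    (hE0 : 0 ≤ E)
    (hnum : (((q + 1) * (P * K) : ℕ) : ℝ) * ((P * K * M : ℕ) : ℝ) ^ (q + 1) * (1 / 2) ^ L +
      ((P * K * M : ℕ) : ℝ) ^ 3 * E ^ t < 1) :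
    ∃ f : Sym2 (Fin P × Fin K × Fin M) → Fin m,
      (∀ (S : Finset (Fin P × Fin K × Fin M)) (r : Fin P × Fin K × Fin M) (p : Fin P) (j : Fin K),
        S.card ≤ q → r ∉ S → (S.filter (fun v => v.1 = p)).card ≤ 2 → ¬ BadG S r p j f) ∧
      ∀ (S : Finset (Fin P × Fin K × Fin M)) (r : Fin P × Fin K × Fin M), S.card = 2 → r ∉ S →
      ¬ BadC t S r f := by
  classical
  set Ω := (m : ℝ) ^ (Fintype.card (Sym2 (Fin P × Fin K × Fin M))) with hΩ
  have hΩ0 : 0 < Ω := by
    rw [hΩ]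
    have := mpos (m := m)
    positivity
  have hN : Fintype.card (Fin P × Fin K × Fin M) = P * K * M := by
    simp [Fintype.card_prod, mul_assoc]
  obtain ⟨N, hNd⟩ : ∃ N : ℝ, N = ((P * K * M : ℕ) : ℝ) := ⟨_, rfl⟩
  have hN0 : 0 ≤ N := by rw [hNd]; positivity
  set 𝒮 : Finset (Finset (Fin P × Fin K × Fin M)) := univ.filter (fun S => S.card ≤ q) with h𝒮
  have h𝒮c : (𝒮.card : ℝ) ≤ (q + 1 : ℕ) * N ^ q := by
    have := card_small (Fin P × Fin K × Fin M) q (by rw [hN]; exact hPK)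
    rw [hN] at this
    rw [hNd]
    exact_mod_cast this
  set X1 : Finset (Finset (Fin P × Fin K × Fin M) × (Fin P × Fin K × Fin M) × Fin P × Fin K) :=
    (𝒮 ×ˢ (univ : Finset ((Fin P × Fin K × Fin M) × Fin P × Fin K))).filter
    (fun x => x.2.1 ∉ x.1 ∧ (x.1.filter (fun v => v.1 = x.2.2.1)).card ≤ 2) with hX1
  set B1 := X1.biUnion (fun x => univ.filter fun f : Sym2 (Fin P × Fin K × Fin M) → Fin m =>
    BadG x.1 x.2.1 x.2.2.1 x.2.2.2 f) with hB1
  set X2 : Finset (Finset (Fin P × Fin K × Fin M) × (Fin P × Fin K × Fin M)) :=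
    ((powersetCard 2 univ) ×ˢ univ).filter (fun x => x.2 ∉ x.1) with hX2
  set B2 := X2.biUnion (fun x => univ.filter fun f : Sym2 (Fin P × Fin K × Fin M) → Fin m =>
    BadC t x.1 x.2 f) with hB2
  have hc1 : (B1.card : ℝ) ≤ ((((q + 1) * (P * K) : ℕ) : ℝ) * N ^ (q + 1)) * (Ω * (1 / 2 : ℝ) ^ L) := by
    have h1 : (B1.card : ℝ) ≤ ∑ x ∈ X1,
        ((univ.filter fun f : Sym2 (Fin P × Fin K × Fin M) → Fin m =>
          BadG x.1 x.2.1 x.2.2.1 x.2.2.2 f).card : ℝ) := by
      exact_mod_cast card_biUnion_le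
    refine h1.trans ?_
    have h2 : ∀ x ∈ X1, ((univ.filter fun f : Sym2 (Fin P × Fin K × Fin M) → Fin m =>
          BadG x.1 x.2.1 x.2.2.1 x.2.2.2 f).card : ℝ) ≤ Ω * (1 / 2 : ℝ) ^ L := by
      intro x hx
      rw [hX1, mem_filter, mem_product, h𝒮, mem_filter] at hx
      exact card_badG h2m hM hx.1.1.2 hx.2.1 hx.2.2 x.2.2.2
    refine (sum_le_sum h2).trans ?_
    rw [sum_const, nsmul_eq_mul]
    refine mul_le_mul_of_nonneg_right ?_ (by positivity)
    have h3 : X1.card ≤ 𝒮.card * ((P * K * M) * (P * K)) := by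
      refine (card_filter_le _ _).trans ?_
      rw [card_product, card_univ, Fintype.card_prod, hN, Fintype.card_prod, Fintype.card_fin,
        Fintype.card_fin]
    have h4 : (X1.card : ℝ) ≤ 𝒮.card * (N * (P * K : ℕ)) := by
      rw [hNd]
      exact_mod_cast h3
    refine h4.trans ?_
    calc (𝒮.card : ℝ) * (N * (P * K : ℕ)) ≤ ((q + 1 : ℕ) * N ^ q) * (N * (P * K : ℕ)) :=
          mul_le_mul_of_nonneg_right h𝒮c (by positivity)
      _ = _ := by push_cast; ring
  have hc2 : (B2.card : ℝ) ≤ N ^ 3 * (Ω * E ^ t) := by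
    have h1 : (B2.card : ℝ) ≤ ∑ x ∈ X2,
        ((univ.filter fun f : Sym2 (Fin P × Fin K × Fin M) → Fin m => BadC t x.1 x.2 f).card : ℝ) := by
      exact_mod_cast card_biUnion_le
    refine h1.trans ?_
    have h2 : ∀ x ∈ X2, ((univ.filter fun f : Sym2 (Fin P × Fin K × Fin M) → Fin m =>
        BadC t x.1 x.2 f).card : ℝ) ≤ Ω * E ^ t := by
      intro x hx
      rw [hX2, mem_filter, mem_product, mem_powersetCard] at hx
      exact card_badC t x.1 x.2 (hE x.1 x.2 hx.1.1.2 hx.2)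
    refine (sum_le_sum h2).trans ?_
    rw [sum_const, nsmul_eq_mul]
    refine mul_le_mul_of_nonneg_right ?_ (by positivity)
    have h3 : X2.card ≤ (P * K * M) ^ 2 * (P * K * M) := by
      refine (card_filter_le _ _).trans ?_
      rw [card_product, card_powersetCard, card_univ, hN]
      exact Nat.mul_le_mul_right _ (Nat.choose_le_pow _ _)
    rw [hNd]
    calc (X2.card : ℝ) ≤ (((P * K * M) ^ 2 * (P * K * M) : ℕ) : ℝ) := by exact_mod_cast h3
      _ = _ := by push_cast; ring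
  have hlt : (((B1 ∪ B2).card : ℕ) : ℝ) < Ω := by
    have h1 : (((B1 ∪ B2).card : ℕ) : ℝ) ≤ B1.card + B2.card := by
      exact_mod_cast card_union_le _ _
    rw [← hNd] at hnum
    have h2 : ((((q + 1) * (P * K) : ℕ) : ℝ) * N ^ (q + 1)) * (Ω * (1 / 2 : ℝ) ^ L) +
      N ^ 3 * (Ω * E ^ t) = Ω * ((((q + 1) * (P * K) : ℕ) : ℝ) * N ^ (q + 1) * (1 / 2) ^ L +
        N ^ 3 * E ^ t) := by ring
    have h3 : Ω * ((((q + 1) * (P * K) : ℕ) : ℝ) * N ^ (q + 1) * (1 / 2) ^ L +
        N ^ 3 * E ^ t) < Ω * 1 := mul_lt_mul_of_pos_left hnum hΩ0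
    linarith
  have hlt' : (B1 ∪ B2).card < (univ : Finset (Sym2 (Fin P × Fin K × Fin M) → Fin m)).card := by
    rw [card_univ, Fintype.card_fun, Fintype.card_fin]
    rw [hΩ] at hlt
    exact_mod_cast hlt
  obtain ⟨f, _, hf⟩ := exists_mem_notMem_of_card_lt_card hlt'
  rw [mem_union, not_or, hB1, hB2, mem_biUnion, mem_biUnion] at hf
  refine ⟨f, ?_, ?_⟩
  · intro S r p j hS hr hSp hbad
    refine hf.1 ⟨(S, r, p, j), ?_, ?_⟩
    · rw [hX1, mem_filter, mem_product, h𝒮, mem_filter]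
      exact ⟨⟨⟨mem_univ _, hS⟩, mem_univ _⟩, hr, hSp⟩
    · rw [mem_filter]
      exact ⟨mem_univ _, hbad⟩
  · intro S r hS hr hbad
    refine hf.2 ⟨(S, r), ?_, ?_⟩
    · rw [hX2, mem_filter, mem_product, mem_powersetCard]
      exact ⟨⟨⟨subset_univ _, hS⟩, mem_univ _⟩, hr⟩
    · rw [mem_filter]
      exact ⟨mem_univ _, hbad⟩

end

theorem exists_glued (P : ℕ) (hP : 1 ≤ P) (ty : Fin P → Bool) (k s : ℕ)
    (hk : ∑ p, capP ty p < k) (hs : s < ∑ p, capC ty p) :
    ∃ (K M : ℕ) (G : SimpleGraph (Fin P × Fin K × Fin M)),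
    1 ≤ K ∧ 1 ≤ M ∧ IsEmpty (SimpleGraph.pathGraph k ↪g G) ∧ Evasive G s := by
  classical
  obtain ⟨t, ht⟩ : ∃ t : ℕ, t = 13 * 3 + 1 := ⟨_, rfl⟩
  obtain ⟨K, hK⟩ : ∃ K : ℕ, K = t * 13 + 1 := ⟨_, rfl⟩
  obtain ⟨L, m, M, hL, hm, hM, hnum⟩ := numeric2 (P * K) (s + 2) ((s + 2 + 1) * (P * K)) t ht
  haveI : NeZero m := ⟨by rw [hm]; positivity⟩
  have h2m : 2 ∣ m := by
    rw [hm]
    exact dvd_pow (dvd_mul_right 2 L) (by norm_num)
  have hE0 : 0 ≤ (((P * K * M : ℕ) : ℝ) * (1 / (m : ℝ)) ^ 3 +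
      36 * ((2 * m) * (((P * K * M : ℕ) : ℝ) + 2 * m) ^ 5 * (1 / (m : ℝ)) ^ 12)) := by positivity
  have hcard : Fintype.card (Fin P × Fin K × Fin M) = P * K * M := by
    simp [Fintype.card_prod, mul_assoc]
  have hM1 : 1 ≤ M := by omega
  have hK1 : 1 ≤ K := by omega
  obtain ⟨f, hf1, hf2⟩ := exists_f (P := P) (K := K) (M := M) (m := m) (t := t) (q := s + 2) (L := L)
    h2m (by rw [hM]) (Nat.mul_pos (Nat.mul_pos hP hK1) hM1) (fun S r hS hr => by
      have := sum_Cfg (m := m) (s := 2) hS hr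
      rw [hcard] at this
      refine this.trans (le_of_eq ?_)
      norm_num) hE0 hnum
  obtain ⟨G, hG1, hG2⟩ := det2 (k := k) (s := s) (t := t) (fun v : Fin P × Fin K × Fin M => v.1) ty f
    hk hs
    (by
      intro p
      have h4 : (univ.image (fun j : Fin K => ((p, j, ⟨0, hM1⟩) : Fin P × Fin K × Fin M))).card = K := by
        rw [card_image_of_injective _ (by
          intro a b h
          simpa using h), card_univ, Fintype.card_fin]
      have h5 : (univ.image (fun j : Fin K => ((p, j, ⟨0, hM1⟩) : Fin P × Fin K × Fin M))).card ≤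
          (univ.filter (fun v : Fin P × Fin K × Fin M => v.1 = p)).card := by
        refine card_le_card ?_
        intro x hx
        rw [mem_image] at hx
        obtain ⟨j, _, rfl⟩ := hx
        simp
      omega)
    (by
      intro S r p hS hr hSp
      have h1 : ∀ j : Fin K, ∃ i : Fin M, Good S r p f (p, j, i) := by
        intro j
        have := hf1 S r p j hS hr hSp
        unfold BadG at this
        push Not at this
        exact this
      choose i hi using h1
      refine ⟨univ.image (fun j => (p, j, i j)), ?_, ?_⟩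
      · rw [card_image_of_injective _ (by
          intro a b h
          simp only [Prod.mk.injEq, true_and] at h
          exact h.1), card_univ, Fintype.card_fin, hK]
      · intro v hv
        rw [mem_image] at hv
        obtain ⟨j, _, rfl⟩ := hv
        obtain ⟨g1, g2, g3, g4, g5⟩ := hi j
        exact ⟨rfl, g1, g2, g3, g4, g5⟩)
    (fun S r hS hr => hf2 S r hS hr)
  exact ⟨K, M, G, hK1, hM1, hG1, hG2⟩

/-- The glued graphs give connected graphs without an induced path on `k` vertices and with cop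
number larger than `s`. -/
theorem exists_connected (P : ℕ) (hP : 1 ≤ P) (ty : Fin P → Bool) (k s : ℕ)
    (hk : ∑ p, capP ty p < k) (hs : s < ∑ p, capC ty p) :
    ∃ (V : Type) (_ : Fintype V) (G : SimpleGraph V), G.Connected ∧ PathFree G k ∧
      s < copNumber G := by
  classical
  obtain ⟨K, M, G, hK, hM, hG, hE⟩ := exists_glued P hP ty k s hk hs
  let x : Fin P × Fin K × Fin M := (⟨0, hP⟩, ⟨0, hK⟩, ⟨0, hM⟩)
  let C : G.ConnectedComponent := G.connectedComponentMk x
  haveI : Fintype C := Fintype.ofFinite _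
  refine ⟨C, inferInstance, C.toSimpleGraph, C.connected_toSimpleGraph, ?_, ?_⟩
  · constructor
    intro e
    exact hG.false (e.trans (SimpleGraph.Embedding.induce C.supp))
  · haveI : Nonempty C := ⟨⟨x, rfl⟩⟩
    exact lt_copNumber (hE.component C)

/-- `a` sparse pieces and `b` cliques. -/
theorem exists_ab (a b : ℕ) (h : 1 ≤ a + b) :
    ∃ (V : Type) (_ : Fintype V) (G : SimpleGraph V), G.Connected ∧ PathFree G (5 * a + 2 * b + 1) ∧
      3 * a + b ≤ copNumber G := by
  classical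
  let ty : Fin (a + b) → Bool := fun p => decide (p.val < a)
  have hP : ∑ p, capP ty p = 5 * a + 2 * b := by
    rw [Fin.sum_univ_add]
    have h1 : ∀ i : Fin a, capP ty (Fin.castAdd b i) = 5 := by
      intro i
      simp [capP, ty]
    have h2 : ∀ i : Fin b, capP ty (Fin.natAdd a i) = 2 := by
      intro i
      simp [capP, ty]
    simp only [h1, h2, sum_const, card_univ, Fintype.card_fin, smul_eq_mul]
    ring
  have hC : ∑ p, capC ty p = 3 * a + b := by
    rw [Fin.sum_univ_add]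
    have h1 : ∀ i : Fin a, capC ty (Fin.castAdd b i) = 3 := by
      intro i
      simp [capC, ty]
    have h2 : ∀ i : Fin b, capC ty (Fin.natAdd a i) = 1 := by
      intro i
      simp [capC, ty]
    simp only [h1, h2, sum_const, card_univ, Fintype.card_fin, smul_eq_mul]
    ring
  obtain ⟨V, hV, G, hG1, hG2, hG3⟩ := exists_connected (a + b) h ty (5 * a + 2 * b + 1)
    (3 * a + b - 1) (by rw [hP]; omega) (by rw [hC]; omega)
  exact ⟨V, hV, G, hG1, hG2, by omega⟩

theorem mem_setK_of {k : ℕ} (hk : 8 ≤ k) (hk9 : k ≠ 9) : k ∈ setK := by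
  rcases Nat.even_or_odd k with he | ho
  · obtain ⟨c, hc⟩ := he
    obtain ⟨V, hV, G, h1, h2, h3⟩ := exists_ab 1 (c - 3) (by omega)
    have e : 5 * 1 + 2 * (c - 3) + 1 = k := by omega
    rw [e] at h2
    exact ⟨by omega, V, hV, G, h1, h2, by omega⟩
  · obtain ⟨c, hc⟩ := ho
    obtain ⟨V, hV, G, h1, h2, h3⟩ := exists_ab 2 (c - 5) (by omega)
    have e : 5 * 2 + 2 * (c - 5) + 1 = k := by omega
    rw [e] at h2
    exact ⟨by omega, V, hV, G, h1, h2, by omega⟩

end Pool.Agent.V1162.CR
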